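import Pool.Agent.Lib.MP_245544_coT.Keys

namespace Pool.Agent.MP_245544_coT

variable {V : Type} {G : SimpleGraph V}

private theorem rank_gen {V X : Type} [Fintype V] [LinearOrder X] [NoMinOrder X] [Nonempty X]
    (A : V → Finset X) :
    ∃ (rk : V → ℕ) (q : ℕ → X), (∀ v, rk v ≤ Fintype.card V) ∧
      (∀ v, (A v).Nonempty → 1 ≤ rk v) ∧
      (∀ s, 1 ≤ s → ∀ v, (s ≤ rk v ↔ ∃ x ∈ A v, x ≤ q s)) ∧
      ∀ v, ∀ x ∈ A v, q (rk v) ≤ x := by
  classical
  have h0 : ∀ v, ∃ m : X, (A v).Nonempty → m ∈ A v ∧ ∀ x ∈ A v, m ≤ x := by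
    intro v
    by_cases h : (A v).Nonempty
    · exact ⟨(A v).min' h, fun _ => ⟨Finset.min'_mem _ h, fun x hx => Finset.min'_le _ x hx⟩⟩
    · obtain ⟨m⟩ := ‹Nonempty X›
      exact ⟨m, fun h' => absurd h' h⟩
  choose lam hlam using h0
  obtain ⟨L, hL⟩ : ∃ L : Finset X, L = (Finset.univ.filter fun v => (A v).Nonempty).image lam :=
    ⟨_, rfl⟩
  have hLc : L.card ≤ Fintype.card V := by
    rw [hL]
    exact Finset.card_image_le.trans (Finset.card_filter_le _ _)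
  have hmem : ∀ v, (A v).Nonempty → lam v ∈ L := by
    intro v hv
    rw [hL]
    exact Finset.mem_image_of_mem _ (Finset.mem_filter.2 ⟨Finset.mem_univ v, hv⟩)
  obtain ⟨c, hc⟩ : ∃ c : X → ℕ, ∀ x, c x = (L.filter fun y => x ≤ y).card := ⟨_, fun _ => rfl⟩
  have hcL : ∀ x, c x ≤ L.card := by
    intro x
    rw [hc]
    exact Finset.card_filter_le _ _
  have hc1 : ∀ x ∈ L, 1 ≤ c x := by
    intro x hx
    rw [hc]
    exact Finset.card_pos.2 ⟨x, Finset.mem_filter.2 ⟨hx, le_rfl⟩⟩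
  have hanti : ∀ x y, x ≤ y → c y ≤ c x := by
    intro x y hxy
    rw [hc, hc]
    refine Finset.card_le_card fun z hz => ?_
    rw [Finset.mem_filter] at hz ⊢
    exact ⟨hz.1, hxy.trans hz.2⟩
  have hstrict : ∀ x ∈ L, ∀ y, x < y → c y < c x := by
    intro x hx y hxy
    rw [hc, hc]
    refine Finset.card_lt_card ⟨fun z hz => ?_, fun h => ?_⟩
    · rw [Finset.mem_filter] at hz ⊢
      exact ⟨hz.1, hxy.le.trans hz.2⟩
    · have h1 := h (Finset.mem_filter.2 ⟨hx, le_rfl⟩)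
      exact absurd hxy (not_lt.2 (Finset.mem_filter.1 h1).2)
  have hinj : ∀ x ∈ L, ∀ y ∈ L, c x = c y → x = y := by
    intro x hx y hy hxy
    rcases lt_trichotomy x y with h | h | h
    · exact absurd hxy (hstrict x hx y h).ne'
    · exact h
    · exact absurd hxy (hstrict y hy x h).ne
  have himg : L.image c = Finset.Icc 1 L.card := by
    refine Finset.eq_of_subset_of_card_le ?_ ?_
    · intro n hn
      obtain ⟨x, hx, rfl⟩ := Finset.mem_image.1 hn
      exact Finset.mem_Icc.2 ⟨hc1 x hx, hcL x⟩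
    · rw [Nat.card_Icc, Finset.card_image_of_injOn (fun x hx y hy h => hinj x hx y hy h)]
      omega
  obtain ⟨b, hb⟩ : ∃ b : X, ∀ v, ∀ x ∈ A v, b < x := by
    obtain ⟨M, hM⟩ := (Finset.univ.biUnion A).bddBelow
    obtain ⟨b, hbM⟩ := exists_lt M
    exact ⟨b, fun v x hx => hbM.trans_le
      (hM (Finset.mem_coe.2 (Finset.mem_biUnion.2 ⟨v, Finset.mem_univ v, hx⟩)))⟩
  have hq : ∀ s : ℕ, ∃ y : X, (y ∈ L ∧ c y = s) ∨ (y = b ∧ ¬ ∃ x ∈ L, c x = s) := by
    intro s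
    by_cases h : ∃ x ∈ L, c x = s
    · obtain ⟨x, hx, hs⟩ := h
      exact ⟨x, Or.inl ⟨hx, hs⟩⟩
    · exact ⟨b, Or.inr ⟨rfl, h⟩⟩
  choose q hq using hq
  refine ⟨fun v => if (A v).Nonempty then c (lam v) else 0, q, ?_, ?_, ?_, ?_⟩
  · intro v
    beta_reduce
    split_ifs
    · exact (hcL _).trans hLc
    · exact Nat.zero_le _
  · intro v hv
    beta_reduce
    rw [if_pos hv]
    exact hc1 _ (hmem v hv)
  · intro s hs v
    beta_reduce
    constructor
    · intro h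
      by_cases hv : (A v).Nonempty
      · rw [if_pos hv] at h
        refine ⟨lam v, (hlam v hv).1, ?_⟩
        have h1 : s ∈ L.image c := by
          rw [himg]
          exact Finset.mem_Icc.2 ⟨hs, h.trans (hcL _)⟩
        obtain ⟨x, hx, hxs⟩ := Finset.mem_image.1 h1
        rcases hq s with ⟨h2, h3⟩ | ⟨_, h3⟩
        · by_contra hcon
          have h4 := hstrict _ h2 _ (not_le.1 hcon)
          omega
        · exact absurd ⟨x, hx, hxs⟩ h3
      · rw [if_neg hv] at h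
        omega
    · rintro ⟨x, hx, hxq⟩
      have hv : (A v).Nonempty := ⟨x, hx⟩
      rw [if_pos hv]
      rcases hq s with ⟨_, h3⟩ | ⟨h2, _⟩
      · rw [← h3]
        exact hanti _ _ (((hlam v hv).2 x hx).trans hxq)
      · rw [h2] at hxq
        exact absurd (hb v x hx) (not_lt.2 hxq)
  · intro v x hx
    have hv : (A v).Nonempty := ⟨x, hx⟩
    beta_reduce
    rw [if_pos hv]
    rcases hq (c (lam v)) with ⟨h2, h3⟩ | ⟨_, h3⟩
    · rw [hinj _ h2 _ (hmem v hv) h3]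
      exact (hlam v hv).2 x hx
    · exact absurd ⟨lam v, hmem v hv, rfl⟩ h3

/-- The ranks of the vertices: `rk v` is the number of different values of `lam` that are at least `lam v`,
where `lam v` is the least key of an edge at `v`; `q s` is the value of rank `s`. -/
theorem exists_rank [Fintype V] (key : Sym2 V → ℝ × ℝ) :
    ∃ (rk : V → ℕ) (q : ℕ → ℝ × ℝ), (∀ v, rk v ≤ Fintype.card V) ∧
      (∀ v, ∀ e ∈ G.edgeSet, v ∈ e → 1 ≤ rk v) ∧
      (∀ s, 1 ≤ s → ∀ v, (s ≤ rk v ↔ ∃ e ∈ G.edgeSet, v ∈ e ∧ toLex (key e) ≤ toLex (q s))) ∧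
      ∀ v, ∀ e ∈ G.edgeSet, v ∈ e → toLex (q (rk v)) ≤ toLex (key e) := by
  classical
  obtain ⟨rk, q, h1, h2, h3, h4⟩ := rank_gen (X := Lex (ℝ × ℝ)) (fun v : V =>
    ((Finset.univ : Finset (Sym2 V)).filter fun e => e ∈ G.edgeSet ∧ v ∈ e).image
      fun e => toLex (key e))
  have hm : ∀ v, ∀ e ∈ G.edgeSet, v ∈ e → toLex (key e) ∈
      ((Finset.univ : Finset (Sym2 V)).filter fun e => e ∈ G.edgeSet ∧ v ∈ e).image
        fun e => toLex (key e) := by
    intro v e he hv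
    exact Finset.mem_image_of_mem _ (Finset.mem_filter.2 ⟨Finset.mem_univ e, he, hv⟩)
  refine ⟨rk, fun s => ofLex (q s), h1, ?_, ?_, ?_⟩
  · intro v e he hv
    exact h2 v ⟨_, hm v e he hv⟩
  · intro s hs v
    rw [h3 s hs v]
    constructor
    · rintro ⟨x, hx, hxq⟩
      obtain ⟨e, he, rfl⟩ := Finset.mem_image.1 hx
      obtain ⟨_, he1, he2⟩ := Finset.mem_filter.1 he
      exact ⟨e, he1, he2, hxq⟩
    · rintro ⟨e, he1, he2, hxq⟩
      exact ⟨_, hm v e he1 he2, hxq⟩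
  · intro v e he hv
    exact h4 v _ (hm v e he hv)

end Pool.Agent.MP_245544_coT
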