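import Pool.Agent.Lib.MP_245544_coI.GS

namespace Pool.Agent.MP_245544_coT

section top

variable {V : Type} {G : SimpleGraph V}

private theorem nreach_mono {D : Drawing G} {φ : ℝ × ℝ → ℝ} {c : ℝ} {r s : ℕ} (h : r ≤ s) {v : V}
    (hv : NReach D φ c r v) : NReach D φ c s v := by
  obtain ⟨u, z, ⟨w, hw⟩, h1⟩ := hv
  exact ⟨u, z, ⟨w, hw.trans h⟩, h1⟩

private theorem nreach_adj {D : Drawing G} {φ : ℝ × ℝ → ℝ} {c : ℝ} {r : ℕ} {v v' : V}
    (h : (nG D φ c).Adj v v') (hv : NReach D φ c r v') : NReach D φ c (r + 1) v := by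
  obtain ⟨u, z, ⟨w, hw⟩, h1⟩ := hv
  refine ⟨u, z, ⟨SimpleGraph.Walk.cons h w, ?_⟩, h1⟩
  rw [SimpleGraph.Walk.length_cons]
  omega

private theorem nreach_zero {D : Drawing G} {φ : ℝ × ℝ → ℝ} {c : ℝ} {v : V}
    (hv : NReach D φ c 0 v) : ∃ z, G.Adj v z ∧ ∃ y ∈ D.arc s(v, z), φ y ≤ c := by
  obtain ⟨u, z, ⟨w, hw⟩, h1⟩ := hv
  have h2 : v = u := SimpleGraph.Walk.eq_of_length_eq_zero (Nat.le_zero.1 hw)
  subst h2
  exact ⟨z, h1⟩

private theorem nreach_step {D : Drawing G} {φ : ℝ × ℝ → ℝ} {c : ℝ} {r : ℕ} {v : V}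
    (hv : NReach D φ c (r + 1) v) : NReach D φ c 0 v ∨
      ∃ v', (nG D φ c).Adj v v' ∧ NReach D φ c r v' := by
  obtain ⟨u, z, ⟨w, hw⟩, h1⟩ := hv
  cases w with
  | nil => exact Or.inl ⟨_, z, ⟨SimpleGraph.Walk.nil, le_rfl⟩, h1⟩
  | cons h w =>
    rename_i v'
    rw [SimpleGraph.Walk.length_cons] at hw
    exact Or.inr ⟨v', h, u, z, ⟨w, by omega⟩, h1⟩

/-- the truncated distance -/
private noncomputable def dd (D : Drawing G) (φ : ℝ × ℝ → ℝ) (c : ℝ) (R : ℕ) (v : V) : ℕ :=
  sInf {r | NReach D φ c r v ∨ r = R + 1}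

variable {D : Drawing G} {φ : ℝ × ℝ → ℝ} {c : ℝ} {R : ℕ}

private theorem dd_mem (v : V) : NReach D φ c (dd D φ c R v) v ∨ dd D φ c R v = R + 1 :=
  Nat.sInf_mem (s := {r | NReach D φ c r v ∨ r = R + 1}) ⟨R + 1, Or.inr rfl⟩

private theorem dd_le {r : ℕ} {v : V} (h : NReach D φ c r v) : dd D φ c R v ≤ r :=
  Nat.sInf_le (Or.inl h)

private theorem dd_le' (v : V) : dd D φ c R v ≤ R + 1 := Nat.sInf_le (Or.inr rfl)

private theorem dd_reach {v : V} (h : dd D φ c R v ≤ R) : NReach D φ c (dd D φ c R v) v := by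
  rcases dd_mem (D := D) (φ := φ) (c := c) (R := R) v with h1 | h1
  · exact h1
  · omega

private theorem dd_adj {v v' : V} (h : (nG D φ c).Adj v v') :
    dd D φ c R v ≤ dd D φ c R v' + 1 := by
  rcases dd_mem (D := D) (φ := φ) (c := c) (R := R) v' with h1 | h1
  · exact dd_le (nreach_adj h h1)
  · rw [h1]
    exact (dd_le' v).trans (Nat.le_succ _)

private theorem dd_step {v : V} {k : ℕ} (h : dd D φ c R v = k + 1) (hk : k + 1 ≤ R) :
    ∃ v', (nG D φ c).Adj v v' ∧ dd D φ c R v' = k := by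
  have h1 : NReach D φ c (k + 1) v := by
    have h2 := dd_reach (D := D) (φ := φ) (c := c) (R := R) (v := v) (by omega)
    rwa [h] at h2
  rcases nreach_step h1 with h2 | ⟨v', h2, h3⟩
  · have h3 := dd_le (R := R) h2
    omega
  · refine ⟨v', h2, ?_⟩
    have h4 := dd_le (R := R) h3
    have h5 := dd_adj (R := R) h2
    omega

private theorem exists_pi (D : Drawing G) (φ : ℝ × ℝ → ℝ) (c : ℝ) (R : ℕ) :
    ∃ π : V → V, ∀ (v : V) (k : ℕ), dd D φ c R v = k + 1 → k + 1 ≤ R →
      (nG D φ c).Adj v (π v) ∧ dd D φ c R (π v) = k := by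
  have h : ∀ v : V, ∃ v' : V, ∀ k : ℕ, dd D φ c R v = k + 1 → k + 1 ≤ R →
      (nG D φ c).Adj v v' ∧ dd D φ c R v' = k := by
    intro v
    rcases Nat.eq_zero_or_pos (dd D φ c R v) with h0 | h0
    · exact ⟨v, fun k hk => by omega⟩
    · by_cases hR : dd D φ c R v ≤ R
      · obtain ⟨v', h1, h2⟩ := dd_step (D := D) (φ := φ) (c := c) (R := R) (v := v)
          (k := dd D φ c R v - 1) (by omega) (by omega)
        exact ⟨v', fun k hk _ => ⟨h1, by omega⟩⟩
      · exact ⟨v, fun k hk hk' => by omega⟩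
  choose π hπ using h
  exact ⟨π, hπ⟩

private theorem pi_iter {π : V → V} (hπ : ∀ (v : V) (k : ℕ), dd D φ c R v = k + 1 → k + 1 ≤ R →
      (nG D φ c).Adj v (π v) ∧ dd D φ c R (π v) = k) {k : ℕ} (hk : k ≤ R) {v : V}
    (hv : dd D φ c R v = k) : ∀ i ≤ k, dd D φ c R (π^[i] v) = k - i := by
  intro i
  induction i with
  | zero => intro _; exact hv
  | succ i ih =>
    intro hi
    rw [Function.iterate_succ_apply']
    have h1 := ih (by omega)
    exact (hπ (π^[i] v) (k - (i + 1)) (by omega) (by omega)).2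

private theorem ray_hyp {col : V → Bool} {π : V → V}
    (hπ : ∀ (v : V) (k : ℕ), dd D φ c R v = k + 1 → k + 1 ≤ R →
      (nG D φ c).Adj v (π v) ∧ dd D φ c R (π v) = k) {k : ℕ} (hk : k ≤ R) {b : Bool}
    {H : Finset (V × V)} (hH : ∀ p ∈ H, (nG D φ c).Adj p.1 p.2 ∧ col p.2 = b ∧
      dd D φ c R p.2 = k ∧ k ≤ dd D φ c R p.1) :
    RayHyp D col φ c k π (fun v => k - dd D φ c R v) b H := by
  have hstep : ∀ p ∈ H, ∀ i < k, (nG D φ c).Adj (π^[i] p.2) (π^[i + 1] p.2) := by
    intro p hp i hi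
    have h1 := pi_iter hπ hk (hH p hp).2.2.1 i hi.le
    rw [Function.iterate_succ_apply']
    exact (hπ (π^[i] p.2) (k - (i + 1)) (by omega) (by omega)).1
  refine
    { adj := fun p hp => (hH p hp).1.1
      colr := fun p hp => (hH p hp).2.1
      layl := fun p hp => Nat.sub_eq_zero_of_le (hH p hp).2.2.2
      edge := fun p hp => (hH p hp).1.2
      layi := fun p hp i hi => ?_
      tadj := fun p hp i hi => (hstep p hp i hi).1
      tarc := fun p hp i hi => (hstep p hp i hi).2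
      root := fun p hp => ?_ }
  · show k - dd D φ c R (π^[i] p.2) = i
    rw [pi_iter hπ hk (hH p hp).2.2.1 i hi]
    omega
  · have h1 := pi_iter hπ hk (hH p hp).2.2.1 k le_rfl
    rw [Nat.sub_self] at h1
    have h2 := dd_reach (D := D) (φ := φ) (c := c) (R := R) (v := π^[k] p.2) (by omega)
    rw [h1] at h2
    exact nreach_zero h2

end top

/-- Edges inside the half plane `{c < fn δ}` with an end vertex at distance at most `R` from a vertex which
has an edge meeting the complement form a sparse graph. -/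
theorem top_bound (R : ℕ) : ∃ C : ℕ, ∀ (V : Type) [Finite V] [DecidableEq V]
    (G : SimpleGraph V) (D : Drawing G) (col : V → Bool) (δ c : ℝ) (b : Bool) (H : Finset (V × V)),
    D.NearPlane (2 * R + 4) → (∀ u v, G.Adj u v → col u ≠ col v) → (∀ v, fn δ (D.pt v) ≠ c) →
    (∀ p ∈ H, (nG D (fn δ) c).Adj p.1 p.2 ∧ col p.2 = b) →
    (∀ p ∈ H, NReach D (fn δ) c R p.1 ∨ NReach D (fn δ) c R p.2) →
    H.card ≤ C * ((H.image Prod.fst).card + (H.image Prod.snd).card) := by
  choose α β hα hray using ray_bound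
  refine ⟨∑ k ∈ Finset.range (R + 1), 2 * (α k + β k), ?_⟩
  intro V _ _ G D col δ c b H hNP hcol hpt hH hR
  obtain ⟨π, hπ⟩ := exists_pi D (fn δ) c R
  set d : V → ℕ := dd D (fn δ) c R with hd
  have hcont : Continuous (fn δ) := by
    unfold fn
    fun_prop
  have hpart : ∀ k ≤ R, ∀ (b' : Bool) (H' : Finset (V × V)),
      (∀ p ∈ H', (nG D (fn δ) c).Adj p.1 p.2 ∧ col p.2 = b' ∧ d p.2 = k ∧ k ≤ d p.1) →
      H'.card ≤ α k * (H'.image Prod.fst).card + β k * (H'.image Prod.snd).card := by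
    intro k hk b' H' hH'
    refine hray k V G D col (fn δ) c π _ b' H' ?_ hcol hcont (goodRegion_fn δ c) hpt
      (ray_hyp hπ hk hH')
    intro e he e' he' hx
    refine hNP e he e' he' ?_
    obtain ⟨x, hx1, x', hx', w, hw⟩ := hx
    exact ⟨x, hx1, x', hx', w, hw.trans (by omega)⟩
  set N : ℕ := (H.image Prod.fst).card + (H.image Prod.snd).card with hN
  have hA : ∀ k ≤ R, (H.filter fun p => d p.2 = k ∧ k ≤ d p.1).card ≤ (α k + β k) * N := by
    intro k hk
    have h1 := hpart k hk b (H.filter fun p => d p.2 = k ∧ k ≤ d p.1) (by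
      intro p hp
      rw [Finset.mem_filter] at hp
      exact ⟨(hH p hp.1).1, (hH p hp.1).2, hp.2⟩)
    have h2 : ((H.filter fun p => d p.2 = k ∧ k ≤ d p.1).image Prod.fst).card ≤ N :=
      (Finset.card_le_card (Finset.image_subset_image (Finset.filter_subset _ _))).trans
        (Nat.le_add_right _ _)
    have h3 : ((H.filter fun p => d p.2 = k ∧ k ≤ d p.1).image Prod.snd).card ≤ N :=
      (Finset.card_le_card (Finset.image_subset_image (Finset.filter_subset _ _))).trans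
        (Nat.le_add_left _ _)
    calc _ ≤ _ := h1
      _ ≤ α k * N + β k * N := add_le_add (Nat.mul_le_mul_left _ h2) (Nat.mul_le_mul_left _ h3)
      _ = (α k + β k) * N := (Nat.add_mul _ _ _).symm
  have hB : ∀ k ≤ R, (H.filter fun p => d p.1 = k ∧ k ≤ d p.2).card ≤ (α k + β k) * N := by
    intro k hk
    have h1 := hpart k hk (!b) ((H.filter fun p => d p.1 = k ∧ k ≤ d p.2).image Prod.swap) (by
      intro q hq
      obtain ⟨p, hp, rfl⟩ := Finset.mem_image.1 hq
      rw [Finset.mem_filter] at hp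
      have h4 := hH p hp.1
      have h5 := hcol p.1 p.2 h4.1.1
      rw [h4.2] at h5
      refine ⟨h4.1.symm, ?_, hp.2⟩
      show col p.1 = !b
      revert h5
      cases col p.1 <;> cases b <;> simp)
    have hs : Function.Injective (Prod.swap : V × V → V × V) := Prod.swap_injective
    rw [Finset.card_image_of_injective _ hs, Finset.image_image, Finset.image_image] at h1
    have h2 : ((H.filter fun p => d p.1 = k ∧ k ≤ d p.2).image (Prod.fst ∘ Prod.swap)).card ≤ N :=
      (Finset.card_le_card (Finset.image_subset_image (Finset.filter_subset _ _))).trans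
        (Nat.le_add_left _ _)
    have h3 : ((H.filter fun p => d p.1 = k ∧ k ≤ d p.2).image (Prod.snd ∘ Prod.swap)).card ≤ N :=
      (Finset.card_le_card (Finset.image_subset_image (Finset.filter_subset _ _))).trans
        (Nat.le_add_right _ _)
    calc _ ≤ _ := h1
      _ ≤ α k * N + β k * N := add_le_add (Nat.mul_le_mul_left _ h2) (Nat.mul_le_mul_left _ h3)
      _ = (α k + β k) * N := (Nat.add_mul _ _ _).symm
  have hcov : H ⊆ (Finset.range (R + 1)).biUnion fun k =>
      (H.filter fun p => d p.2 = k ∧ k ≤ d p.1) ∪ (H.filter fun p => d p.1 = k ∧ k ≤ d p.2) := by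
    intro p hp
    rw [Finset.mem_biUnion]
    have hm : d p.1 ≤ R ∨ d p.2 ≤ R := (hR p hp).imp (fun h => dd_le h) (fun h => dd_le h)
    rcases le_total (d p.2) (d p.1) with h1 | h1
    · refine ⟨d p.2, Finset.mem_range.2 (by omega), Finset.mem_union_left _ ?_⟩
      exact Finset.mem_filter.2 ⟨hp, rfl, h1⟩
    · refine ⟨d p.1, Finset.mem_range.2 (by omega), Finset.mem_union_right _ ?_⟩
      exact Finset.mem_filter.2 ⟨hp, rfl, h1⟩
  calc H.card ≤ _ := Finset.card_le_card hcov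
    _ ≤ ∑ k ∈ Finset.range (R + 1), ((H.filter fun p => d p.2 = k ∧ k ≤ d p.1) ∪
        (H.filter fun p => d p.1 = k ∧ k ≤ d p.2)).card := Finset.card_biUnion_le
    _ ≤ ∑ k ∈ Finset.range (R + 1), 2 * (α k + β k) * N := by
      refine Finset.sum_le_sum fun k hk => ?_
      have hk' : k ≤ R := Nat.lt_succ_iff.1 (Finset.mem_range.1 hk)
      calc _ ≤ _ := Finset.card_union_le _ _
        _ ≤ (α k + β k) * N + (α k + β k) * N := add_le_add (hA k hk') (hB k hk')
        _ = 2 * (α k + β k) * N := by ring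
    _ = (∑ k ∈ Finset.range (R + 1), 2 * (α k + β k)) * N := by rw [Finset.sum_mul]

end Pool.Agent.MP_245544_coT
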