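import Pool.Agent.Lib.MP_245544_coI.SDefs
import Pool.Agent.Lib.MP_245544_coI.Top
import Pool.Agent.Lib.MP_245544_coT.Tie
import Pool.Agent.Lib.MP_245544_coT.Keys

namespace Pool.Agent.MP_245544_coT

/-- The bound for one rank. -/
private theorem tied_one (C : ℕ) (hC : ∀ (V : Type) [Finite V] [DecidableEq V]
    (G : SimpleGraph V) (D : Drawing G) (col : V → Bool) (δ c : ℝ) (b : Bool) (H : Finset (V × V)),
    D.NearPlane (2 * 0 + 4) → (∀ u v, G.Adj u v → col u ≠ col v) → (∀ v, fn δ (D.pt v) ≠ c) →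
    (∀ p ∈ H, (nG D (fn δ) c).Adj p.1 p.2 ∧ col p.2 = b) →
    (∀ p ∈ H, NReach D (fn δ) c 0 p.1 ∨ NReach D (fn δ) c 0 p.2) →
    H.card ≤ C * ((H.image Prod.fst).card + (H.image Prod.snd).card))
    {V : Type} [Fintype V] [DecidableEq V]
    (G : SimpleGraph V) (D : Drawing G) (col : V → Bool) (key : Sym2 V → ℝ × ℝ) (rk : V → ℕ)
    (q : ℕ → ℝ × ℝ) (b : Bool) (hD : D.NearPlane 4) (hcol : ∀ u v, G.Adj u v → col u ≠ col v)
    (hkey : IsKey D key) (hrk : IsRank G key rk q) (s : ℕ) (hs : 1 ≤ s) :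
    ((tied G col rk b).filter fun p => rk p.1 = s).card ≤
      (1 + 2 * C) * (Finset.univ.filter fun v => rk v = s).card := by
  classical
  set S : Finset V := Finset.univ.filter fun v => rk v = s with hS
  set A : Finset (V × V) := (tied G col rk b).filter fun p => rk p.1 = s with hA
  have hmemA : ∀ p ∈ A, G.Adj p.1 p.2 ∧ col p.2 = b ∧ rk p.1 = s ∧ rk p.2 = s := by
    intro p hp
    rw [hA, Finset.mem_filter, mem_tied] at hp
    exact ⟨hp.1.1, hp.1.2.1, hp.2, hp.1.2.2.trans hp.2⟩
  -- the edges through `q s`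
  have h1 : (A.filter fun p => toLex (key s(p.1, p.2)) = toLex (q s)).card ≤ S.card := by
    have hinj : Set.InjOn (fun p : V × V => s(p.1, p.2))
        (A.filter fun p => toLex (key s(p.1, p.2)) = toLex (q s)) := by
      intro p hp p' hp' h
      have hp1 := hmemA p (Finset.mem_filter.1 (Finset.mem_coe.1 hp)).1
      have hp2 := hmemA p' (Finset.mem_filter.1 (Finset.mem_coe.1 hp')).1
      have h2 : s(p.1, p.2) = s(p'.1, p'.2) := h
      rw [Sym2.eq_iff] at h2
      rcases h2 with ⟨h3, h4⟩ | ⟨h3, h4⟩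
      · exact Prod.ext h3 h4
      · exfalso
        apply hcol p.1 p.2 hp1.1
        rw [h3, hp2.2.1, hp1.2.1]
    rw [← Finset.card_image_of_injOn hinj]
    refine tie_bound D hD S _ ?_ (q s) ?_
    · intro e he
      obtain ⟨p, hp, rfl⟩ := Finset.mem_image.1 he
      have hp1 := hmemA p (Finset.mem_filter.1 hp).1
      rw [mem_edgesIn]
      refine ⟨hp1.1, fun v hv => ?_⟩
      rw [hS, Finset.mem_filter]
      rcases Sym2.mem_iff.1 hv with rfl | rfl
      · exact ⟨Finset.mem_univ _, hp1.2.2.1⟩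
      · exact ⟨Finset.mem_univ _, hp1.2.2.2⟩
    · intro e he
      obtain ⟨p, hp, rfl⟩ := Finset.mem_image.1 he
      have hp1 := hmemA p (Finset.mem_filter.1 hp).1
      have h2 := (Finset.mem_filter.1 hp).2
      have h3 := (hkey s(p.1, p.2) hp1.1).1
      have h4 : key s(p.1, p.2) = q s := toLex.injective h2
      rw [h4] at h3
      exact h3
  -- the other edges
  obtain ⟨δ, c, hδ, hpt⟩ := D.exists_halfplane hkey (q s)
  have hreach : ∀ v, rk v = s → NReach D (fn δ) c 0 v := by
    intro v hv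
    obtain ⟨e, he, hve, hke⟩ := (hrk.iff s hs v).1 hv.ge
    obtain ⟨z, rfl⟩ := Sym2.mem_iff_exists.1 hve
    obtain ⟨y, hy, hyc⟩ := (hδ _ he).2 hke
    exact ⟨v, z, ⟨SimpleGraph.Walk.nil, le_rfl⟩, he, y, hy, hyc⟩
  have h2 : (A.filter fun p => ¬ toLex (key s(p.1, p.2)) = toLex (q s)).card ≤
      2 * C * S.card := by
    have h3 := hC V G D col δ c b (A.filter fun p => ¬ toLex (key s(p.1, p.2)) = toLex (q s))
      hD hcol hpt (by
        intro p hp
        have hp1 := hmemA p (Finset.mem_filter.1 hp).1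
        have hp2 := (Finset.mem_filter.1 hp).2
        refine ⟨⟨hp1.1, fun z hz => ?_⟩, hp1.2.1⟩
        by_contra hcon
        have h4 := (hδ _ hp1.1).1 ⟨z, hz, not_lt.1 hcon⟩
        have h5 := hrk.le_key p.1 _ hp1.1 (Sym2.mem_mk_left _ _)
        rw [hp1.2.2.1] at h5
        exact hp2 (le_antisymm h4 h5)) (by
        intro p hp
        have hp1 := hmemA p (Finset.mem_filter.1 hp).1
        exact Or.inl (hreach p.1 hp1.2.2.1))
    have h4 : ((A.filter fun p => ¬ toLex (key s(p.1, p.2)) = toLex (q s)).image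
        Prod.fst).card ≤ S.card := by
      refine Finset.card_le_card fun v hv => ?_
      obtain ⟨p, hp, rfl⟩ := Finset.mem_image.1 hv
      have hp1 := hmemA p (Finset.mem_filter.1 hp).1
      rw [hS, Finset.mem_filter]
      exact ⟨Finset.mem_univ _, hp1.2.2.1⟩
    have h5 : ((A.filter fun p => ¬ toLex (key s(p.1, p.2)) = toLex (q s)).image
        Prod.snd).card ≤ S.card := by
      refine Finset.card_le_card fun v hv => ?_
      obtain ⟨p, hp, rfl⟩ := Finset.mem_image.1 hv
      have hp1 := hmemA p (Finset.mem_filter.1 hp).1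
      rw [hS, Finset.mem_filter]
      exact ⟨Finset.mem_univ _, hp1.2.2.2⟩
    calc _ ≤ _ := h3
      _ ≤ C * (S.card + S.card) := Nat.mul_le_mul_left _ (add_le_add h4 h5)
      _ = 2 * C * S.card := by ring
  have h3 := Finset.card_filter_add_card_filter_not (s := A)
    (fun p => toLex (key s(p.1, p.2)) = toLex (q s))
  have h4 : (1 + 2 * C) * S.card = S.card + 2 * C * S.card := by ring
  omega

/-- There are only linearly many edges whose ends have the same rank. -/
theorem tied_bound : ∃ C : ℕ, ∀ (V : Type) [Fintype V] [DecidableEq V]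
    (G : SimpleGraph V) (D : Drawing G) (col : V → Bool) (key : Sym2 V → ℝ × ℝ) (rk : V → ℕ)
    (q : ℕ → ℝ × ℝ) (b : Bool), D.NearPlane 4 → (∀ u v, G.Adj u v → col u ≠ col v) →
    IsKey D key → IsRank G key rk q → (tied G col rk b).card ≤ C * Fintype.card V := by
  obtain ⟨C, hC⟩ := top_bound 0
  refine ⟨1 + 2 * C, ?_⟩
  intro V _ _ G D col key rk q b hD hcol hkey hrk
  classical
  have h1 : ∀ p ∈ tied G col rk b, rk p.1 ∈ Finset.range (Fintype.card V + 1) := by
    intro p _
    rw [Finset.mem_range]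
    have := hrk.le_card p.1
    omega
  have h2 : ∀ v ∈ (Finset.univ : Finset V), rk v ∈ Finset.range (Fintype.card V + 1) := by
    intro v _
    rw [Finset.mem_range]
    have := hrk.le_card v
    omega
  have e1 := Finset.card_eq_sum_card_fiberwise h1
  have e2 := Finset.card_eq_sum_card_fiberwise h2
  rw [Finset.card_univ] at e2
  have e3 : (1 + 2 * C) * Fintype.card V =
      ∑ s ∈ Finset.range (Fintype.card V + 1),
        (1 + 2 * C) * (Finset.univ.filter fun v => rk v = s).card := by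
    rw [← Finset.mul_sum]
    exact congrArg (fun x => (1 + 2 * C) * x) e2
  rw [e1, e3]
  refine Finset.sum_le_sum fun s _ => ?_
  rcases Nat.eq_zero_or_pos s with rfl | hs
  · have h3 : ((tied G col rk b).filter fun p => rk p.1 = 0) = ∅ := by
      rw [Finset.filter_eq_empty_iff]
      intro p hp h4
      have h5 := hrk.pos p.1 _ (mem_tied.1 hp).1 (Sym2.mem_mk_left _ _)
      omega
    rw [h3, Finset.card_empty]
    exact Nat.zero_le _
  · exact tied_one C hC G D col key rk q b hD hcol hkey hrk s hs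

end Pool.Agent.MP_245544_coT
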