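import Pool.Agent.Lib.MP_245544_coI.Struct2
import Pool.Agent.Lib.MP_245544_coI.TieE
import Pool.Agent.Lib.MP_245544_coI.Rank
import Pool.Agent.Lib.MP_245544_coT.Final

namespace Pool.Agent.MP_245544_coT

private theorem asn_nn {V : Type} [Fintype V] [DecidableEq V] (I : Finset (V × V)) :
    nn I ≤ 2 * Fintype.card V := by
  have h1 : (I.image Prod.fst).card ≤ Fintype.card V := Finset.card_le_univ _
  have h2 : (I.image Prod.snd).card ≤ Fintype.card V := Finset.card_le_univ _
  unfold nn
  omega

private theorem asn_cover {V : Type} [Fintype V] [DecidableEq V] (G : SimpleGraph V)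
    (col : V → Bool) (rk : V → ℕ) (hcol : ∀ u v, G.Adj u v → col u ≠ col v) :
    (edgesIn G Finset.univ).card ≤
      (incd G col rk false).card + (incd G col rk true).card + (tied G col rk false).card := by
  classical
  have hsub : edgesIn G Finset.univ ⊆
      ((incd G col rk false ∪ incd G col rk true) ∪ tied G col rk false).image
        (fun p => s(p.1, p.2)) := by
    intro e he
    have he' := (mem_edgesIn.1 he).1
    have key : ∀ x l : V, G.Adj x l → col l = false → s(x, l) ∈
        ((incd G col rk false ∪ incd G col rk true) ∪ tied G col rk false).image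
        (fun p => s(p.1, p.2)) := by
      intro x l hxl hl
      have hx : col x = true := by
        have h1 := hcol x l hxl
        rw [hl] at h1
        exact Bool.eq_true_of_not_eq_false h1
      rw [Finset.mem_image]
      rcases lt_trichotomy (rk l) (rk x) with h | h | h
      · refine ⟨(x, l), ?_, rfl⟩
        exact Finset.mem_union_left _ (Finset.mem_union_left _ (mem_incd.2 ⟨hxl, hl, h⟩))
      · refine ⟨(x, l), ?_, rfl⟩
        exact Finset.mem_union_right _ (mem_tied.2 ⟨hxl, hl, h⟩)
      · refine ⟨(l, x), ?_, Sym2.eq_swap⟩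
        exact Finset.mem_union_left _ (Finset.mem_union_right _ (mem_incd.2 ⟨hxl.symm, hx, h⟩))
    induction e using Sym2.ind with
    | _ u v =>
      rw [SimpleGraph.mem_edgeSet] at he'
      cases hv : col v
      · exact key u v he' hv
      · have hu : col u = false := by
          have h1 := hcol u v he'
          rw [hv] at h1
          exact Bool.eq_false_of_not_eq_true h1
        rw [Sym2.eq_swap]
        exact key v u he'.symm hu
  calc (edgesIn G Finset.univ).card
      ≤ (((incd G col rk false ∪ incd G col rk true) ∪ tied G col rk false).image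
        (fun p => s(p.1, p.2))).card := Finset.card_le_card hsub
    _ ≤ ((incd G col rk false ∪ incd G col rk true) ∪ tied G col rk false).card :=
        Finset.card_image_le
    _ ≤ (incd G col rk false ∪ incd G col rk true).card + (tied G col rk false).card :=
        Finset.card_union_le _ _
    _ ≤ (incd G col rk false).card + (incd G col rk true).card + (tied G col rk false).card :=
        Nat.add_le_add_right (Finset.card_union_le _ _) _

/-- From a bound for sparse structures to a bound for drawings. -/
theorem maxEdges_of_spr' {r k : ℕ} (hk : 2 * r + 7 ≤ k) (b : ℕ → ℕ) (hb1 : ∀ n, 1 ≤ b n)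
    (hb : Monotone b)
    (hTH : ∀ C : ℕ, ∃ A : ℕ, ∀ (V : Type) [DecidableEq V] (I : Finset (V × V)) (f g : V → ℕ) (T : ℕ),
      Spr r C I f g → (∀ p ∈ I, f p.1 ≤ g p.2) → (∀ p ∈ I, g p.2 ≤ T) → I.card ≤ A * b T * nn I) :
    ∃ C : ℕ, ∀ n, maxEdges k n ≤ C * n * b n := by
  obtain ⟨C₀, hC₀⟩ := spr_of_drawing' r
  obtain ⟨A, hA⟩ := hTH C₀
  obtain ⟨C₁, hC₁⟩ := tied_bound
  refine ⟨8 * A + 2 * C₁, fun n => ?_⟩
  refine csSup_le' ?_
  rintro m ⟨G, D, hD, rfl⟩
  obtain ⟨G', col, hle, hcol, hcard⟩ := exists_bip G
  have hnp : (D.restrict hle).NearPlane (2 * r + 4) :=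
    (hD.nearPlane (m := 2 * r + 4) (by omega)).restrict hle
  have hnp4 : (D.restrict hle).NearPlane 4 := (hD.nearPlane (m := 4) (by omega)).restrict hle
  obtain ⟨key, hkey⟩ := (D.restrict hle).exists_key
  obtain ⟨rk, q, h1, h2, h3, h4⟩ := exists_rank (G := G') key
  have hrk : IsRank G' key rk q := ⟨h1, h2, h3, h4⟩
  have hE : G.edgeSet.ncard = (edgesIn G Finset.univ).card := by
    rw [← Set.ncard_coe_finset]
    congr 1
    ext e
    rw [Finset.mem_coe, mem_edgesIn]
    simp
  have hinc : ∀ c : Bool, (incd G' col rk c).card ≤ 2 * A * (n * b n) := by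
    intro c
    have hs := hC₀ (Fin n) G' (D.restrict hle) col key rk q c hnp hcol hkey hrk
    have h5 := hA (Fin n) (tr (incd G' col rk c)) (fun v => rk v + 1) rk n hs ?_ ?_
    · have h6 := asn_nn (tr (incd G' col rk c))
      rw [Fintype.card_fin] at h6
      rw [card_tr] at h5
      calc (incd G' col rk c).card ≤ A * b n * nn (tr (incd G' col rk c)) := h5
        _ ≤ A * b n * (2 * n) := Nat.mul_le_mul_left _ h6
        _ = 2 * A * (n * b n) := by ring
    · intro p hp
      exact (mem_incd.1 (mem_tr'.1 hp)).2.2
    · intro p _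
      have h7 := h1 p.2
      rwa [Fintype.card_fin] at h7
  have htie : (tied G' col rk false).card ≤ C₁ * (n * b n) := by
    have h5 := hC₁ (Fin n) G' (D.restrict hle) col key rk q false hnp4 hcol hkey hrk
    rw [Fintype.card_fin] at h5
    refine h5.trans (Nat.mul_le_mul_left _ ?_)
    exact Nat.le_mul_of_pos_right n (hb1 n)
  have hcov := asn_cover G' col rk hcol
  rw [hE]
  calc (edgesIn G Finset.univ).card ≤ 2 * (edgesIn G' Finset.univ).card := hcard
    _ ≤ 2 * ((incd G' col rk false).card + (incd G' col rk true).card +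
        (tied G' col rk false).card) := Nat.mul_le_mul_left 2 hcov
    _ ≤ 2 * (2 * A * (n * b n) + 2 * A * (n * b n) + C₁ * (n * b n)) :=
        Nat.mul_le_mul_left 2 (Nat.add_le_add (Nat.add_le_add (hinc false) (hinc true)) htie)
    _ = (8 * A + 2 * C₁) * n * b n := by ring

end Pool.Agent.MP_245544_coT
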