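import Pool.Agent.Lib.MP_245544_coI.CDefs

namespace Pool.Agent.MP_245544_coT

variable {V : Type}

theorem mem_tr {I : Finset (V × V)} {a b : V} : (a, b) ∈ tr I ↔ (b, a) ∈ I := by
  unfold tr
  rw [Finset.mem_map]
  constructor
  · rintro ⟨q, hq, h⟩
    have h1 : q.swap = (a, b) := h
    have h2 : q = (b, a) := by
      rw [← Prod.swap_swap q, h1]
      rfl
    rw [← h2]
    exact hq
  · intro h
    exact ⟨(b, a), h, rfl⟩

theorem mem_tr' {I : Finset (V × V)} {p : V × V} : p ∈ tr I ↔ p.swap ∈ I := by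
  obtain ⟨a, b⟩ := p
  exact mem_tr

theorem tr_tr (I : Finset (V × V)) : tr (tr I) = I := by
  ext p
  rw [mem_tr', mem_tr', Prod.swap_swap]

theorem tr_mono {I J : Finset (V × V)} (h : J ⊆ I) : tr J ⊆ tr I := by
  exact Finset.map_subset_map.2 h

theorem card_tr (I : Finset (V × V)) : (tr I).card = I.card := by
  exact Finset.card_map _

theorem side_swap (r : ℕ) (p : V × V) : side r p.swap = side (r + 1) p := by
  unfold side
  rcases Nat.mod_two_eq_zero_or_one r with h | h
  · rw [if_pos h, if_neg (by omega)]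
    rfl
  · rw [if_neg (by omega), if_pos (by omega)]
    rfl

variable [DecidableEq V]

theorem nn_tr (I : Finset (V × V)) : nn (tr I) = nn I := by
  have h1 : (tr I).image Prod.fst = I.image Prod.snd := by
    ext v
    simp only [Finset.mem_image]
    constructor
    · rintro ⟨q, hq, rfl⟩
      exact ⟨q.swap, mem_tr'.1 hq, rfl⟩
    · rintro ⟨q, hq, rfl⟩
      refine ⟨q.swap, ?_, rfl⟩
      rw [mem_tr', Prod.swap_swap]
      exact hq
  have h2 : (tr I).image Prod.snd = I.image Prod.fst := by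
    ext v
    simp only [Finset.mem_image]
    constructor
    · rintro ⟨q, hq, rfl⟩
      exact ⟨q.swap, mem_tr'.1 hq, rfl⟩
    · rintro ⟨q, hq, rfl⟩
      refine ⟨q.swap, ?_, rfl⟩
      rw [mem_tr', Prod.swap_swap]
      exact hq
  unfold nn
  rw [h1, h2, add_comm]

theorem nn_mono {I J : Finset (V × V)} (h : J ⊆ I) : nn J ≤ nn I := by
  exact Nat.add_le_add (Finset.card_le_card (Finset.image_subset_image h))
    (Finset.card_le_card (Finset.image_subset_image h))

theorem le_up {I : Finset (V × V)} (g : V → ℕ) {v w : V} (h : (v, w) ∈ I) : g w ≤ up I g v := by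
  have h1 : (v, w) ∈ I.filter (fun p => p.1 = v) := Finset.mem_filter.2 ⟨h, rfl⟩
  exact Finset.le_sup (f := fun p : V × V => g p.2) h1

theorem exists_up {I : Finset (V × V)} (g : V → ℕ) {v w₀ : V} (h : (v, w₀) ∈ I) :
    ∃ w, (v, w) ∈ I ∧ up I g v = g w := by
  have hne : (I.filter (fun p => p.1 = v)).Nonempty := ⟨(v, w₀), Finset.mem_filter.2 ⟨h, rfl⟩⟩
  obtain ⟨q, hq, he⟩ := Finset.exists_mem_eq_sup _ hne (fun p : V × V => g p.2)
  rw [Finset.mem_filter] at hq
  refine ⟨q.2, ?_, he⟩
  rw [← hq.2]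
  exact hq.1

theorem up_mono {I J : Finset (V × V)} {g g' : V → ℕ} (h : J ⊆ I) (hg : ∀ v, g' v ≤ g v) (v : V) :
    up J g' v ≤ up I g v := by
  refine Finset.sup_le fun q hq => ?_
  rw [Finset.mem_filter] at hq
  refine (hg q.2).trans (le_up g ?_)
  rw [← hq.2]
  exact h hq.1

theorem up_le {I : Finset (V × V)} {g : V → ℕ} {v : V} {T : ℕ} (h : ∀ w, (v, w) ∈ I → g w ≤ T) :
    up I g v ≤ T := by
  refine Finset.sup_le fun q hq => ?_
  rw [Finset.mem_filter] at hq
  refine h q.2 ?_
  rw [← hq.2]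
  exact hq.1

theorem E_mono (r : ℕ) {I J : Finset (V × V)} {g g' : V → ℕ} (h : J ⊆ I) (hg : ∀ v, g' v ≤ g v) (v : V) :
    E r J g' v ≤ E r I g v := by
  induction r generalizing I J g g' v with
  | zero => exact hg v
  | succ r ih => exact ih (tr_mono h) (fun w => up_mono h hg w) v

/-- The recursion from the outside. -/
theorem E_succ (r : ℕ) (I : Finset (V × V)) (g : V → ℕ) :
    E (r + 1) I g = up (if r % 2 = 0 then I else tr I) (E r I g) := by
  induction r generalizing I g with
  | zero => rfl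
  | succ r ih =>
    have h1 : E (r + 1 + 1) I g = E (r + 1) (tr I) (up I g) := rfl
    have h2 : E (r + 1) I g = E r (tr I) (up I g) := rfl
    rw [h1, ih, h2]
    rcases Nat.mod_two_eq_zero_or_one r with h | h
    · rw [if_pos h, if_neg (by omega)]
    · rw [if_neg (by omega), if_pos (by omega), tr_tr]

theorem E_two (r : ℕ) (I : Finset (V × V)) (g : V → ℕ) : E (r + 2) I g = E r I (E 2 I g) := by
  have h1 : E (r + 2) I g = E r (tr (tr I)) (up (tr I) (up I g)) := rfl
  have h2 : E 2 I g = up (tr I) (up I g) := rfl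
  rw [h1, h2, tr_tr]

theorem E_le_succ (r : ℕ) {I : Finset (V × V)} (g : V → ℕ) {p : V × V} (hp : p ∈ I) :
    E r I g (side r p) ≤ E (r + 1) I g (side (r + 1) p) := by
  induction r generalizing I g p with
  | zero => exact le_up g hp
  | succ r ih =>
    have h1 := ih (I := tr I) (up I g) (p := p.swap) (by rw [mem_tr', Prod.swap_swap]; exact hp)
    rw [side_swap, side_swap] at h1
    exact h1

theorem E_le_of_le {r r' : ℕ} (h : r ≤ r') {I : Finset (V × V)} (g : V → ℕ) {p : V × V} (hp : p ∈ I) :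
    E r I g (side r p) ≤ E r' I g (side r' p) := by
  induction r', h using Nat.le_induction with
  | base => exact le_rfl
  | succ n _ ih => exact ih.trans (E_le_succ n g hp)

/-- Values of `E` are bounded by the values of `g`. -/
theorem E_le (r : ℕ) {I : Finset (V × V)} {g : V → ℕ} {T : ℕ} (h : ∀ p ∈ I, g p.2 ≤ T) {p : V × V}
    (hp : p ∈ I) : E r I g (side r p) ≤ T := by
  induction r generalizing I g p with
  | zero => exact h p hp
  | succ r ih =>
    have h1 := ih (I := tr I) (g := up I g) (p := p.swap)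
      (fun q hq => up_le fun w hw => h (q.2, w) hw) (by rw [mem_tr', Prod.swap_swap]; exact hp)
    rw [side_swap] at h1
    exact h1

/-- Comparison of `E` with a family `γ i` that increases along `I`. -/
theorem E_le_family (r : ℕ) {I : Finset (V × V)} {γ : ℕ → V → ℕ}
    (h : ∀ i < r, ∀ p ∈ I, γ i (side i p) ≤ γ (i + 1) (side (i + 1) p)) {p : V × V} (hp : p ∈ I) :
    E r I (γ 0) (side r p) ≤ γ r (side r p) := by
  induction r generalizing p with
  | zero => exact le_rfl
  | succ r ih =>
    have ih' : ∀ q ∈ I, E r I (γ 0) (side r q) ≤ γ (r + 1) (side (r + 1) q) := fun q hq =>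
      (ih (fun i hi => h i (by omega)) hq).trans (h r (by omega) q hq)
    rw [E_succ]
    rcases Nat.mod_two_eq_zero_or_one r with hr | hr
    · have h1 : ∀ q : V × V, side r q = q.2 := fun q => if_pos hr
      have h2 : ∀ q : V × V, side (r + 1) q = q.1 := fun q => if_neg (by omega)
      rw [if_pos hr, h2]
      refine up_le fun w hw => ?_
      have h3 := ih' (p.1, w) hw
      rw [h1, h2] at h3
      exact h3
    · have h1 : ∀ q : V × V, side r q = q.1 := fun q => if_neg (by omega)
      have h2 : ∀ q : V × V, side (r + 1) q = q.2 := fun q => if_pos (by omega)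
      rw [if_neg (by omega), h2]
      refine up_le fun w hw => ?_
      have h3 := ih' (w, p.2) (mem_tr.1 hw)
      rw [h1, h2] at h3
      exact h3

theorem Spr.subset {r C : ℕ} {I J : Finset (V × V)} {f g : V → ℕ} (h : Spr r C I f g) (hJ : J ⊆ I) :
    Spr r C J f g := by
  intro s H hH hp
  refine h s H (hH.trans hJ) fun p hpH => ⟨(hp p hpH).1, (hp p hpH).2.trans ?_⟩
  exact E_mono r hJ (fun _ => le_rfl) _

theorem Spr.le {r r' C : ℕ} {I : Finset (V × V)} {f g : V → ℕ} (h : Spr r' C I f g) (hr : r ≤ r') :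
    Spr r C I f g := by
  intro s H hH hp
  exact h s H hH fun p hpH => ⟨(hp p hpH).1, (hp p hpH).2.trans (E_le_of_le hr g (hH hpH))⟩

theorem Spr.dual {r C : ℕ} {I : Finset (V × V)} {f g : V → ℕ} (h : Spr (r + 1) C I f g)
    (hfg : ∀ p ∈ I, f p.1 ≤ g p.2) : Spr r C (tr I) g (up I g) := by
  intro s H hH hp
  have h1 := h s (tr H) ?_ ?_
  · rwa [card_tr, nn_tr] at h1
  · intro p hpH
    have h2 := hH (mem_tr'.1 hpH)
    rw [mem_tr', Prod.swap_swap] at h2
    exact h2
  · intro p hpH
    have h3 : p.swap ∈ H := mem_tr'.1 hpH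
    have h2 := hH h3
    rw [mem_tr', Prod.swap_swap] at h2
    obtain ⟨h4, h5⟩ := hp _ h3
    rw [side_swap] at h5
    exact ⟨(hfg p h2).trans h4, h5⟩

end Pool.Agent.MP_245544_coT
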