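import Mathlib

/-! MP_245544_co, iterated logarithm: definitions of the combinatorial part. -/

namespace Pool.Agent.MP_245544_coT

variable {V : Type}

/-- The transposed set of pairs. -/
def tr (I : Finset (V × V)) : Finset (V × V) := I.map (Equiv.prodComm V V).toEmbedding

/-- `up I g v` is the largest value of `g` on the right partners of `v`. -/
def up [DecidableEq V] (I : Finset (V × V)) (g : V → ℕ) (v : V) : ℕ :=
  (I.filter (fun p => p.1 = v)).sup (fun p => g p.2)

/-- Iterated largest values. `E r I g` is a function on the second coordinates of `I` if `r` is even and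
on the first coordinates if `r` is odd. -/
def E [DecidableEq V] : ℕ → Finset (V × V) → (V → ℕ) → V → ℕ
  | 0, _, g => g
  | r + 1, I, g => E r (tr I) (up I g)

/-- The coordinate of `p` on which `E r I g` lives. -/
def side (r : ℕ) (p : V × V) : V := if r % 2 = 0 then p.2 else p.1

/-- Number of left vertices plus number of right vertices of `I`. -/
def nn [DecidableEq V] (I : Finset (V × V)) : ℕ := (I.image Prod.fst).card + (I.image Prod.snd).card

/-- `I` (with positions `f` on the left and ends `g` on the right) is `r`-sparse with constant `C`. -/
def Spr [DecidableEq V] (r C : ℕ) (I : Finset (V × V)) (f g : V → ℕ) : Prop :=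
  ∀ (s : ℕ) (H : Finset (V × V)), H ⊆ I → (∀ p ∈ H, f p.1 ≤ s ∧ s ≤ E r I g (side r p)) →
    H.card ≤ C * nn H

end Pool.Agent.MP_245544_coT
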