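import Pool.Agent.Lib.MP_245544_coI.LemA

namespace Pool.Agent.MP_245544_coT

variable {V : Type} [DecidableEq V]

/-- The incidences with a positive gap that are not of class A. -/
def clsB (I : Finset (V × V)) (f g : V → ℕ) : Finset (V × V) :=
  I.filter (fun p => f p.1 < g p.2 ∧ E 2 I g p.2 - g p.2 ≤ g p.2 - f p.1)

/-- The incidences that remain after `n` steps (in the orientation of `I`). -/
def chJ : ℕ → Finset (V × V) → (V → ℕ) → (V → ℕ) → Finset (V × V)
  | 0, I, _, _ => I
  | n + 1, I, f, g => tr (chJ n (tr (clsB I f g)) g (up I g))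

/-- The functions `f₀ = f, f₁ = g, f₂ = up I g, …` of the chain. -/
def chF : ℕ → Finset (V × V) → (V → ℕ) → (V → ℕ) → V → ℕ
  | 0, _, f, _ => f
  | n + 1, I, f, g => chF n (tr (clsB I f g)) g (up I g)

/-- New positions (`i = 0`, on the left) and new ends (`i = 1`, on the right). -/
def posB (K T i : ℕ) (I : Finset (V × V)) (f g : V → ℕ) (v : V) : ℕ :=
  Nat.log K T - Nat.log K (chF (i + 2) I f g v - chF i I f g v)

private theorem chn_sub (I : Finset (V × V)) (f g : V → ℕ) : clsB I f g ⊆ I :=
  Finset.filter_subset _ _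

private theorem chn_trsub (I : Finset (V × V)) (f g : V → ℕ) : tr (clsB I f g) ⊆ tr I :=
  tr_mono (chn_sub I f g)

theorem chJ_subset (n : ℕ) (I : Finset (V × V)) (f g : V → ℕ) : chJ n I f g ⊆ I := by
  induction n generalizing I f g with
  | zero => exact Finset.Subset.refl I
  | succ n ih =>
    have h1 : chJ (n + 1) I f g = tr (chJ n (tr (clsB I f g)) g (up I g)) := rfl
    rw [h1]
    have h2 := tr_mono (ih (tr (clsB I f g)) g (up I g))
    rw [tr_tr] at h2
    exact h2.trans (chn_sub I f g)

theorem chF_le_E (i : ℕ) (I : Finset (V × V)) (f g : V → ℕ) (v : V) :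
    chF (i + 1) I f g v ≤ E i I g v := by
  induction i generalizing I f g v with
  | zero => exact le_rfl
  | succ i ih =>
    have h1 : chF (i + 1 + 1) I f g = chF (i + 1) (tr (clsB I f g)) g (up I g) := rfl
    have h2 : E (i + 1) I g = E i (tr I) (up I g) := rfl
    rw [h1, h2]
    exact (ih _ _ _ v).trans (E_mono i (chn_trsub I f g) (fun _ => le_rfl) v)

private theorem chn_mem {n : ℕ} {I : Finset (V × V)} {f g : V → ℕ} {p : V × V}
    (hp : p ∈ chJ (n + 1) I f g) : p.swap ∈ chJ n (tr (clsB I f g)) g (up I g) := by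
  have h1 : chJ (n + 1) I f g = tr (chJ n (tr (clsB I f g)) g (up I g)) := rfl
  rw [h1] at hp
  exact mem_tr'.1 hp

private theorem chn_hfg (I : Finset (V × V)) (f g : V → ℕ) :
    ∀ q ∈ tr (clsB I f g), g q.1 ≤ up I g q.2 := by
  intro q hq
  have h1 := chn_sub I f g (mem_tr'.1 hq)
  exact le_up g h1

/-- Positive gaps, and every gap is at least the next `D`. -/
theorem chain_gap {n : ℕ} {I : Finset (V × V)} {f g : V → ℕ} {p : V × V} (hp : p ∈ chJ n I f g) {i : ℕ}
    (hi : i < n) :
    chF i I f g (side (i + 1) p) < chF (i + 1) I f g (side i p) ∧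
      chF (i + 3) I f g (side i p) - chF (i + 1) I f g (side i p) ≤
        chF (i + 1) I f g (side i p) - chF i I f g (side (i + 1) p) := by
  induction n generalizing I f g p i with
  | zero => exact absurd hi (Nat.not_lt_zero i)
  | succ n ih =>
    have hs := chn_mem hp
    cases i with
    | zero =>
      have h1 := mem_tr'.1 (chJ_subset n _ _ _ hs)
      rw [Prod.swap_swap] at h1
      obtain ⟨-, h2, h3⟩ := Finset.mem_filter.1 h1
      have h4 : chF 3 I f g p.2 ≤ E 2 I g p.2 := chF_le_E 2 I f g p.2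
      have e0 : side 0 p = p.2 := rfl
      have e1 : side 1 p = p.1 := rfl
      have e2 : chF 0 I f g p.1 = f p.1 := rfl
      have e3 : chF 1 I f g p.2 = g p.2 := rfl
      simp only [Nat.zero_add]
      rw [e0, e1, e2, e3]
      refine ⟨h2, ?_⟩
      exact (Nat.sub_le_sub_right h4 _).trans h3
    | succ i =>
      have h1 := ih hs (i := i) (by omega)
      rw [side_swap, side_swap] at h1
      exact h1

theorem chain_le {n : ℕ} {I : Finset (V × V)} {f g : V → ℕ} (hfg : ∀ p ∈ I, f p.1 ≤ g p.2) {p : V × V}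
    (hp : p ∈ chJ n I f g) {i : ℕ} (hi : i ≤ n + 1) :
    chF i I f g (side (i + 1) p) ≤ chF (i + 1) I f g (side i p) := by
  induction n generalizing I f g p i with
  | zero =>
    have hpI : p ∈ I := chJ_subset 0 I f g hp
    rcases Nat.le_one_iff_eq_zero_or_eq_one.1 hi with h | h
    · subst h
      exact hfg p hpI
    · subst h
      exact le_up g hpI
  | succ n ih =>
    have hpI : p ∈ I := chJ_subset _ I f g hp
    cases i with
    | zero => exact hfg p hpI
    | succ i =>
      have hs := chn_mem hp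
      have h1 := ih (chn_hfg I f g) hs (i := i) (by omega)
      rw [side_swap, side_swap] at h1
      exact h1

private theorem chn_split (I : Finset (V × V)) (f g : V → ℕ) (hfg : ∀ p ∈ I, f p.1 ≤ g p.2) :
    I.card ≤ (I.filter (fun p => f p.1 = g p.2)).card + (clsA I f g).card +
      (clsB I f g).card := by
  have h1 : I ⊆ (I.filter (fun p => f p.1 = g p.2) ∪ clsA I f g) ∪ clsB I f g := by
    intro p hp
    rw [Finset.mem_union, Finset.mem_union]
    rcases (hfg p hp).eq_or_lt with h | h
    · exact Or.inl (Or.inl (Finset.mem_filter.2 ⟨hp, h⟩))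
    · rcases Nat.lt_or_ge (g p.2 - f p.1) (E 2 I g p.2 - g p.2) with h2 | h2
      · exact Or.inl (Or.inr (Finset.mem_filter.2 ⟨hp, h, h2⟩))
      · exact Or.inr (Finset.mem_filter.2 ⟨hp, h, h2⟩)
  have h2 := Finset.card_le_card h1
  have h3 := Finset.card_union_le (I.filter (fun p => f p.1 = g p.2) ∪ clsA I f g) (clsB I f g)
  have h4 := Finset.card_union_le (I.filter (fun p => f p.1 = g p.2)) (clsA I f g)
  omega

/-- The number of incidences lost in `n` steps. -/
theorem chain_card {r n C B T : ℕ}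
    (hA : ∀ (I' : Finset (V × V)) (f' g' : V → ℕ), Spr (r + 2) C I' f' g' →
      (∀ p ∈ I', f' p.1 ≤ g' p.2) → (∀ p ∈ I', g' p.2 ≤ T) → (clsA I' f' g').card ≤ B * nn I')
    {I : Finset (V × V)} {f g : V → ℕ} (h : Spr (r + 1 + n) C I f g)
    (hfg : ∀ p ∈ I, f p.1 ≤ g p.2) (hT : ∀ p ∈ I, g p.2 ≤ T) :
    I.card ≤ (chJ n I f g).card + n * ((C + B) * nn I) := by
  induction n generalizing I f g with
  | zero =>
    have h1 : chJ 0 I f g = I := rfl
    rw [h1]
    omega
  | succ n ih =>
    have h1 : chJ (n + 1) I f g = tr (chJ n (tr (clsB I f g)) g (up I g)) := rfl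
    have h2 : Spr (r + 1 + n) C (tr I) g (up I g) := Spr.dual (r := r + 1 + n) h hfg
    have h3 := ih (h2.subset (chn_trsub I f g)) (chn_hfg I f g)
      (fun q _ => up_le fun w hw => hT (q.2, w) hw)
    have h4 := h.ties
    have h5 := hA I f g (h.le (by omega)) hfg hT
    have h6 := chn_split I f g hfg
    have h7 : nn (tr (clsB I f g)) ≤ nn I := by
      rw [nn_tr]
      exact nn_mono (chn_sub I f g)
    have h8 : n * ((C + B) * nn (tr (clsB I f g))) ≤ n * ((C + B) * nn I) :=
      Nat.mul_le_mul_left _ (Nat.mul_le_mul_left _ h7)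
    rw [h1, card_tr]
    rw [card_tr] at h3
    have h9 : (n + 1) * ((C + B) * nn I) = n * ((C + B) * nn I) + (C * nn I + B * nn I) := by
      ring
    rw [h9]
    omega

end Pool.Agent.MP_245544_coT
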