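import Mathlib

namespace Pool.Agent.MP_245544_coT

/-- The heavy part: every `p` has more than `α` partners below each root. -/
private theorem clean_heavy {V : Type} [DecidableEq V] (H : Finset (V × V)) (root : V → V) {α β : ℕ}
    (h1 : ∀ H' ⊆ H, ∀ m, (∀ p ∈ H', root p.2 = m) →
      H'.card ≤ α * (H'.image Prod.fst).card + β * (H'.image Prod.snd).card)
    (hh : ∀ x ∈ H, α + 1 ≤ (H.filter fun y => y.1 = x.1 ∧ root y.2 = root x.2).card) :
    H.card ≤ β * (α + 1) * (H.image Prod.snd).card := by
  have key : ∀ m, (H.filter fun x => root x.2 = m).card ≤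
      β * (α + 1) * ((H.image Prod.snd).filter fun q => root q = m).card := by
    intro m
    have hsub : H.filter (fun x => root x.2 = m) ⊆ H := Finset.filter_subset _ _
    have e1 := h1 _ hsub m fun p hp => (Finset.mem_filter.1 hp).2
    have e2 : (α + 1) * ((H.filter fun x => root x.2 = m).image Prod.fst).card ≤
        (H.filter fun x => root x.2 = m).card := by
      refine Finset.mul_card_image_le_card _ _ fun a ha => ?_
      obtain ⟨x, hx, rfl⟩ := Finset.mem_image.1 ha
      obtain ⟨hxH, hxm⟩ := Finset.mem_filter.1 hx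
      refine (hh x hxH).trans (Finset.card_le_card fun y hy => ?_)
      rw [Finset.mem_filter] at hy
      rw [Finset.mem_filter, Finset.mem_filter]
      exact ⟨⟨hy.1, hy.2.2.trans hxm⟩, hy.2.1⟩
    have e3 : (H.filter fun x => root x.2 = m).image Prod.snd =
        (H.image Prod.snd).filter fun q => root q = m := by
      ext q
      simp only [Finset.mem_image, Finset.mem_filter]
      constructor
      · rintro ⟨x, ⟨hx, hm⟩, rfl⟩
        exact ⟨⟨x, hx, rfl⟩, hm⟩
      · rintro ⟨⟨x, hx, rfl⟩, hm⟩
        exact ⟨x, ⟨hx, hm⟩, rfl⟩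
    rw [e3] at e1
    set F := ((H.filter fun x => root x.2 = m).image Prod.fst).card
    set S := ((H.image Prod.snd).filter fun q => root q = m).card
    set N := (H.filter fun x => root x.2 = m).card
    have e4 : F ≤ β * S := by
      have : (α + 1) * F = α * F + F := by ring
      omega
    calc N ≤ α * F + β * S := e1
      _ ≤ α * (β * S) + β * S := Nat.add_le_add_right (Nat.mul_le_mul_left _ e4) _
      _ = β * (α + 1) * S := by ring
  have s1 : H.card = ∑ m ∈ H.image (fun x => root x.2), (H.filter fun x => root x.2 = m).card :=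
    Finset.card_eq_sum_card_image (fun x => root x.2) H
  have s2 : (H.image Prod.snd).card = ∑ m ∈ H.image (fun x => root x.2),
      ((H.image Prod.snd).filter fun q => root q = m).card := by
    refine Finset.card_eq_sum_card_fiberwise fun q hq => ?_
    obtain ⟨x, hx, rfl⟩ := Finset.mem_image.1 (Finset.mem_coe.1 hq)
    exact Finset.mem_coe.2 (Finset.mem_image_of_mem (fun x : V × V => root x.2) hx)
  rw [s1, s2, Finset.mul_sum]
  exact Finset.sum_le_sum fun m _ => key m

/-- The light part: every `p` has at most `α` partners below each root. -/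
private theorem clean_light {V : Type} [DecidableEq V] (H : Finset (V × V)) (root : V → V) {α : ℕ}
    (h2 : ∀ H' ⊆ H, (∀ p q q', (p, q) ∈ H' → (p, q') ∈ H' → root q = root q' → q = q') →
      H'.card ≤ 3 * (H'.image Prod.fst).card + (H'.image Prod.snd).card)
    (hl : ∀ x ∈ H, (H.filter fun y => y.1 = x.1 ∧ root y.2 = root x.2).card ≤ α) :
    H.card ≤ α * (3 * (H.image Prod.fst).card + (H.image Prod.snd).card) := by
  classical
  have hex : ∀ k : V × V, ∃ x : V × V, k ∈ H.image (fun y => (y.1, root y.2)) →
      x ∈ H ∧ (x.1, root x.2) = k := by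
    intro k
    by_cases hk : k ∈ H.image (fun y => (y.1, root y.2))
    · obtain ⟨x, hx, e⟩ := Finset.mem_image.1 hk
      exact ⟨x, fun _ => ⟨hx, e⟩⟩
    · exact ⟨k, fun h => absurd h hk⟩
  choose r hr using hex
  obtain ⟨K, hK⟩ : ∃ K, K = H.image (fun y : V × V => (y.1, root y.2)) := ⟨_, rfl⟩
  rw [← hK] at hr
  have hinj : Set.InjOn r (K : Set (V × V)) := by
    intro k hk k' hk' e
    rw [← (hr k hk).2, ← (hr k' hk').2, e]
  have hsub : K.image r ⊆ H := by
    intro x hx
    obtain ⟨k, hk, rfl⟩ := Finset.mem_image.1 hx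
    exact (hr k hk).1
  have e1 := h2 (K.image r) hsub (by
    intro p q q' hq hq' he
    obtain ⟨k, hk, ek⟩ := Finset.mem_image.1 hq
    obtain ⟨k', hk', ek'⟩ := Finset.mem_image.1 hq'
    have a1 := (hr k hk).2
    have a2 := (hr k' hk').2
    rw [ek] at a1
    rw [ek'] at a2
    have a3 : k = k' := by
      rw [← a1, ← a2]
      simp only [he]
    rw [a3, ek'] at ek
    exact (Prod.mk.inj ek).2.symm)
  rw [Finset.card_image_of_injOn hinj] at e1
  have e2 : H.card ≤ α * K.card := by
    rw [hK]
    refine Finset.card_le_mul_card_image _ _ fun a ha => ?_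
    obtain ⟨x, hx, rfl⟩ := Finset.mem_image.1 ha
    refine le_trans (Finset.card_le_card fun y hy => ?_) (hl x hx)
    rw [Finset.mem_filter] at hy ⊢
    exact ⟨hy.1, (Prod.mk.inj hy.2).1, (Prod.mk.inj hy.2).2⟩
  have e3 : ((K.image r).image Prod.fst).card ≤ (H.image Prod.fst).card :=
    Finset.card_le_card (Finset.image_subset_image hsub)
  have e4 : ((K.image r).image Prod.snd).card ≤ (H.image Prod.snd).card :=
    Finset.card_le_card (Finset.image_subset_image hsub)
  refine e2.trans (Nat.mul_le_mul_left _ ?_)
  omega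

/-- The cleaning step (pure counting): if every part of `H` below one root is sparse and every part of
`H` in which the partners of every `p` have different roots is sparse, then `H` is sparse. -/
theorem clean_count {V : Type} [DecidableEq V] (H : Finset (V × V)) (root : V → V) {α β : ℕ} (hα : 1 ≤ α)
    (h1 : ∀ H' ⊆ H, ∀ m, (∀ p ∈ H', root p.2 = m) →
      H'.card ≤ α * (H'.image Prod.fst).card + β * (H'.image Prod.snd).card)
    (h2 : ∀ H' ⊆ H, (∀ p q q', (p, q) ∈ H' → (p, q') ∈ H' → root q = root q' → q = q') →
      H'.card ≤ 3 * (H'.image Prod.fst).card + (H'.image Prod.snd).card) :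
    H.card ≤ 3 * α * (H.image Prod.fst).card + (α + β * (α + 1)) * (H.image Prod.snd).card := by
  classical
  let c : V × V → ℕ := fun x => (H.filter fun y => y.1 = x.1 ∧ root y.2 = root x.2).card
  have hc : ∀ x y : V × V, y.1 = x.1 → root y.2 = root x.2 → c y = c x := by
    intro x y e1 e2
    simp only [c, e1, e2]
  let A := H.filter fun x => α < c x
  let B := H.filter fun x => ¬ α < c x
  have hA : A ⊆ H := Finset.filter_subset _ _
  have hB : B ⊆ H := Finset.filter_subset _ _
  have hAB : A.card + B.card = H.card := Finset.card_filter_add_card_filter_not _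
  have kA : A.card ≤ β * (α + 1) * (A.image Prod.snd).card := by
    refine clean_heavy A root (fun H' hH' => h1 H' (hH'.trans hA)) fun x hx => ?_
    have hx' : α + 1 ≤ c x := (Finset.mem_filter.1 hx).2
    refine hx'.trans (Finset.card_le_card fun y hy => ?_)
    rw [Finset.mem_filter] at hy
    rw [Finset.mem_filter]
    refine ⟨Finset.mem_filter.2 ⟨hy.1, ?_⟩, hy.2⟩
    rw [hc x y hy.2.1 hy.2.2]
    exact hx'
  have kB : B.card ≤ α * (3 * (B.image Prod.fst).card + (B.image Prod.snd).card) := by
    refine clean_light B root (fun H' hH' => h2 H' (hH'.trans hB)) fun x hx => ?_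
    have hx' : c x ≤ α := not_lt.1 (Finset.mem_filter.1 hx).2
    refine le_trans (Finset.card_le_card fun y hy => ?_) hx'
    rw [Finset.mem_filter] at hy
    exact Finset.mem_filter.2 ⟨hB hy.1, hy.2⟩
  have sA : (A.image Prod.snd).card ≤ (H.image Prod.snd).card :=
    Finset.card_le_card (Finset.image_subset_image hA)
  have fB : (B.image Prod.fst).card ≤ (H.image Prod.fst).card :=
    Finset.card_le_card (Finset.image_subset_image hB)
  have sB : (B.image Prod.snd).card ≤ (H.image Prod.snd).card :=
    Finset.card_le_card (Finset.image_subset_image hB)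
  calc H.card = A.card + B.card := hAB.symm
    _ ≤ β * (α + 1) * (H.image Prod.snd).card +
        α * (3 * (H.image Prod.fst).card + (H.image Prod.snd).card) := by
        refine Nat.add_le_add (kA.trans (Nat.mul_le_mul_left _ sA))
          (kB.trans (Nat.mul_le_mul_left _ ?_))
        omega
    _ = 3 * α * (H.image Prod.fst).card + (α + β * (α + 1)) * (H.image Prod.snd).card := by ring

end Pool.Agent.MP_245544_coT
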