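import Pool.Agent.Lib.MP_245544_coI.TDefs

namespace Pool.Agent.MP_245544_coT

open Set

private theorem joinedIn_Iic_phi {γ : unitInterval → ℝ × ℝ} (hγ : Continuous γ)
    (τ : unitInterval) : JoinedIn (γ '' Set.Iic τ) (γ 0) (γ τ) := by
  refine ⟨⟨⟨fun t => γ (t * τ), ?_⟩, ?_, ?_⟩, ?_⟩
  · exact hγ.comp (continuous_id.mul continuous_const)
  · change γ (0 * τ) = γ 0
    rw [zero_mul]
  · change γ (1 * τ) = γ τ
    rw [one_mul]
  · intro t
    exact ⟨t * τ, unitInterval.mul_le_right, rfl⟩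

/-- The part of an arc from its initial point to its first point in `{φ ≤ c}`. -/
private theorem exists_ray_phi_aux {φ : ℝ × ℝ → ℝ} (hφ : Continuous φ) {c : ℝ}
    {γ : unitInterval → ℝ × ℝ} (hγ : Continuous γ) (hinj : Function.Injective γ)
    (h0 : c < φ (γ 0)) (h1 : φ (γ 1) ≠ c) (hx : ∃ z ∈ range γ, φ z ≤ c) :
    ∃ (r : Set (ℝ × ℝ)) (e : ℝ × ℝ), r ⊆ range γ ∧ (∀ z ∈ r, c ≤ φ z) ∧ φ e = c ∧
      (∀ z ∈ r, φ z = c → z = e) ∧ JoinedIn r (γ 0) e ∧ γ 1 ∉ r := by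
  have hf : Continuous fun t => φ (γ t) := hφ.comp hγ
  have hcl : IsClosed {t : unitInterval | φ (γ t) ≤ c} := isClosed_le hf continuous_const
  have hne : {t : unitInterval | φ (γ t) ≤ c}.Nonempty := by
    obtain ⟨z, ⟨t, rfl⟩, ht⟩ := hx
    exact ⟨t, ht⟩
  obtain ⟨τ, hτ⟩ := hcl.isCompact.exists_isLeast hne
  have hlt : ∀ t, t < τ → c < φ (γ t) := by
    intro t ht
    by_contra hcon
    exact absurd (hτ.2 (not_lt.mp hcon)) (not_le.mpr ht)
  have h0τ : (0 : unitInterval) < τ := by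
    rcases lt_or_ge (0 : unitInterval) τ with h | h
    · exact h
    · exfalso
      have h' : τ = 0 := le_antisymm h (unitInterval.nonneg')
      have := hτ.1
      rw [h'] at this
      exact absurd h0 (not_lt.mpr this)
  have hge : c ≤ φ (γ τ) := by
    have hcl2 : IsClosed {t : unitInterval | c ≤ φ (γ t)} := isClosed_le continuous_const hf
    have hsub : closure (Iio τ) ⊆ {t : unitInterval | c ≤ φ (γ t)} :=
      closure_minimal (fun t ht => (hlt t ht).le) hcl2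
    apply hsub
    have hni : (Iio τ).Nonempty := ⟨(0 : unitInterval), h0τ⟩
    rw [closure_Iio' hni]
    exact Set.mem_Iic.mpr le_rfl
  have heq : φ (γ τ) = c := le_antisymm hτ.1 hge
  refine ⟨γ '' Set.Iic τ, γ τ, image_subset_range _ _, ?_, heq, ?_, joinedIn_Iic_phi hγ τ, ?_⟩
  · rintro z ⟨t, ht, rfl⟩
    rcases lt_or_eq_of_le (Set.mem_Iic.mp ht) with h | h
    · exact (hlt t h).le
    · rw [h]
      exact hge
  · rintro z ⟨t, ht, rfl⟩ hz
    rcases lt_or_eq_of_le (Set.mem_Iic.mp ht) with h | h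
    · exact absurd hz (hlt t h).ne'
    · rw [h]
  · rintro ⟨t, ht, hteq⟩
    have h2 : t = 1 := hinj hteq
    have h3 : τ = 1 := by
      rw [h2] at ht
      exact le_antisymm unitInterval.le_one' (Set.mem_Iic.mp ht)
    rw [h3] at heq
    exact h1 heq

variable {V : Type} {G : SimpleGraph V}

/-- The ray of a vertex `q` along an edge `qz` that meets `{φ ≤ c}`: the part of the arc up to its first
point `e` in `{φ ≤ c}`. -/
theorem Drawing.exists_ray_phi (D : Drawing G) {φ : ℝ × ℝ → ℝ} (hφ : Continuous φ) {c : ℝ} {q z : V}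
    (h : G.Adj q z) (h0 : c < φ (D.pt q)) (h1 : φ (D.pt z) ≠ c) (hx : ∃ x ∈ D.arc s(q, z), φ x ≤ c) :
    ∃ (r : Set (ℝ × ℝ)) (e : ℝ × ℝ), r ⊆ D.arc s(q, z) ∧ (∀ x ∈ r, c ≤ φ x) ∧ φ e = c ∧
      (∀ x ∈ r, φ x = c → x = e) ∧ JoinedIn r (D.pt q) e ∧ D.pt z ∉ r := by
  obtain ⟨γ, hγ, hinj, h0', h1', hr⟩ := D.isArc q z h
  rw [← h0'] at h0
  rw [← h1'] at h1
  rw [← hr] at hx
  rw [← hr, ← h0', ← h1']
  exact exists_ray_phi_aux hφ hγ hinj h0 h1 hx

end Pool.Agent.MP_245544_coT
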