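import Pool.Agent.Lib.MP_245544_coI.WeakC
import Pool.Agent.Lib.MP_245544_coI.RayPhi

namespace Pool.Agent.MP_245544_coT

variable {V : Type} {G : SimpleGraph V}

/-- `A` is a part of an edge `uv`, `u ∈ S`, near `x`, which contains the point of `v` only if `v ∈ S`. -/
private def Pj (D : Drawing G) (col : V → Bool) (k : Bool) (j : ℕ) (x : V) (S : Set V)
    (A : Set (ℝ × ℝ)) : Prop :=
  ∃ u v, G.Adj u v ∧ A ⊆ D.arc s(u, v) ∧ u ∈ S ∧ (D.pt v ∈ A → v ∈ S) ∧ (v ∈ S ∨ col u = k) ∧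
    ∃ w : G.Walk x u, w.length ≤ j

private theorem pj_disj {D : Drawing G} {j : ℕ} (hD : D.NearPlane (2 * j + 4)) {col : V → Bool}
    (hcol : ∀ u v, G.Adj u v → col u ≠ col v) {k : Bool} {x y : V} {S T : Set V}
    {A B : Set (ℝ × ℝ)} (hA : Pj D col k j x S A) (hB : Pj D col k j y T B) (hST : Disjoint S T)
    (hwk : ∃ p : G.Walk x y, p.length ≤ 4) : Disjoint A B := by
  obtain ⟨u, v, huv, hAs, hu, hv, hk, w1, hw1⟩ := hA
  obtain ⟨u', v', huv', hBs, hu', hv', hk', w2, hw2⟩ := hB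
  obtain ⟨w3, hw3⟩ := hwk
  have hST' : ∀ a, a ∈ S → a ∈ T → False := fun a h1 h2 => Set.disjoint_left.1 hST h1 h2
  rw [Set.disjoint_left]
  intro t htA htB
  have hne : s(u, v) ≠ s(u', v') := by
    intro h
    rw [Sym2.eq_iff] at h
    rcases h with ⟨h, -⟩ | ⟨h, h'⟩
    · exact hST' u hu (by rw [h]; exact hu')
    · rcases hk with hk | hk
      · exact hST' v hk (by rw [h']; exact hu')
      · rcases hk' with hk' | hk'
        · exact hST' u hu (by rw [h]; exact hk')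
        · exact hcol _ _ huv' (by rw [hk', ← h, hk])
  obtain ⟨a, ha, ha', hta⟩ := hD.inter (e := s(u, v)) (e' := s(u', v')) huv huv' hne
    ⟨u, Sym2.mem_mk_left _ _, u', Sym2.mem_mk_left _ _, (w1.reverse.append w3).append w2, by
      rw [SimpleGraph.Walk.length_append, SimpleGraph.Walk.length_append,
        SimpleGraph.Walk.length_reverse]
      omega⟩ (hAs htA) (hBs htB)
  rw [hta] at htA htB
  refine hST' a ?_ ?_
  · rw [Sym2.mem_iff] at ha
    rcases ha with rfl | rfl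
    · exact hu
    · exact hv htA
  · rw [Sym2.mem_iff] at ha'
    rcases ha' with rfl | rfl
    · exact hu'
    · exact hv' htB

/-- The clean case: the partners of every `p` have different roots. -/
theorem RayHyp.clean [DecidableEq V] {D : Drawing G} {col : V → Bool} {φ : ℝ × ℝ → ℝ} {c : ℝ} {j : ℕ}
    {π : V → V} {lay : V → ℕ} {b : Bool} {H : Finset (V × V)} (h : RayHyp D col φ c j π lay b H)
    (hD : D.NearPlane (2 * j + 4)) (hcol : ∀ u v, G.Adj u v → col u ≠ col v) (hφ : Continuous φ)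
    (hgood : GoodRegion φ c) (hc : ∀ v, φ (D.pt v) ≠ c)
    (hroots : ∀ p q q', (p, q) ∈ H → (p, q') ∈ H → π^[j] q = π^[j] q' → q = q') :
    H.card ≤ 3 * (H.image Prod.fst).card + (H.image Prod.snd).card := by
  classical
  -- the points of the tree paths
  have hpos : ∀ p ∈ H, ∀ i ≤ j, c < φ (D.pt (π^[i] p.2)) := by
    intro p hp i hi
    cases i with
    | zero => exact h.edge p hp _ (D.joinedIn_arc (h.adj p hp)).target_mem
    | succ i => exact h.tarc p hp i (by omega) _ (D.joinedIn_arc (h.tadj p hp i (by omega))).target_mem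
  -- the rays
  have hray : ∀ m : V, ∃ (r : Set (ℝ × ℝ)) (e : ℝ × ℝ), (∃ p ∈ H, π^[j] p.2 = m) →
      (∃ z, G.Adj m z ∧ r ⊆ D.arc s(m, z) ∧ D.pt z ∉ r) ∧ (∀ x ∈ r, c ≤ φ x) ∧ φ e = c ∧
      (∀ x ∈ r, φ x = c → x = e) ∧ JoinedIn r (D.pt m) e := by
    intro m
    by_cases hm : ∃ p ∈ H, π^[j] p.2 = m
    · obtain ⟨p, hp, rfl⟩ := hm
      obtain ⟨z, hz, hy⟩ := h.root p hp
      obtain ⟨r, e, h1, h2, h3, h4, h5, h6⟩ := D.exists_ray_phi hφ hz (hpos p hp j le_rfl) (hc z) hy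
      exact ⟨r, e, fun _ => ⟨⟨z, hz, h1, h6⟩, h2, h3, h4, h5⟩⟩
    · exact ⟨∅, 0, fun h => (hm h).elim⟩
  choose r e hre using hray
  have hre' : ∀ p x, (p, x) ∈ H → (∃ z, G.Adj (π^[j] x) z ∧ r (π^[j] x) ⊆ D.arc s(π^[j] x, z) ∧
      D.pt z ∉ r (π^[j] x)) ∧ (∀ y ∈ r (π^[j] x), c ≤ φ y) ∧ φ (e (π^[j] x)) = c ∧
      (∀ y ∈ r (π^[j] x), φ y = c → y = e (π^[j] x)) ∧
      JoinedIn (r (π^[j] x)) (D.pt (π^[j] x)) (e (π^[j] x)) := fun p x hp => hre _ ⟨(p, x), hp, rfl⟩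
  -- the colour of the roots
  have hbool : ∀ a b a' b' : Bool, a ≠ b → a' ≠ b' → a = a' → b = b' := by decide
  have hcolr : ∀ p ∈ H, ∀ p' ∈ H, ∀ i ≤ j, col (π^[i] p.2) = col (π^[i] p'.2) := by
    intro p hp p' hp' i
    induction i with
    | zero =>
      intro _
      exact (h.colr p hp).trans (h.colr p' hp').symm
    | succ i ih =>
      intro hi
      exact hbool _ _ _ _ (hcol _ _ (h.tadj p hp i (by omega)))
        (hcol _ _ (h.tadj p' hp' i (by omega))) (ih (by omega))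
  obtain ⟨k, hk⟩ : ∃ k, ∀ p ∈ H, col (π^[j] p.2) = k := by
    by_cases h0 : ∃ p, p ∈ H
    · obtain ⟨p, hp⟩ := h0
      exact ⟨_, fun p' hp' => hcolr p' hp' p hp j le_rfl⟩
    · exact ⟨true, fun p hp => (h0 ⟨p, hp⟩).elim⟩
  -- walks along the tree paths
  have hwalk : ∀ p x, (p, x) ∈ H → ∀ i ≤ j, ∃ w : G.Walk x (π^[i] x), w.length ≤ j := by
    intro p x hp i hi
    suffices hs : ∀ i ≤ j, ∃ w : G.Walk x (π^[i] x), w.length = i by
      obtain ⟨w, hw⟩ := hs i hi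
      exact ⟨w, by omega⟩
    intro i
    induction i with
    | zero =>
      intro _
      exact ⟨SimpleGraph.Walk.nil, rfl⟩
    | succ i ih =>
      intro hi
      obtain ⟨w, hw⟩ := ih (by omega)
      exact ⟨w.concat (h.tadj _ hp i (by omega)), by rw [SimpleGraph.Walk.length_concat, hw]⟩
  -- the vertices of an arm
  let S : V → V → Set V := fun p x => {v | v = p ∨ ∃ i ≤ j, v = π^[i] x}
  let S0 : V → Set V := fun x => {v | ∃ i ≤ j, v = π^[i] x}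
  have hS0 : ∀ p p' x y, (p, x) ∈ H → (p', y) ∈ H → π^[j] x ≠ π^[j] y → Disjoint (S0 x) (S0 y) := by
    intro p p' x y h1 h2 h3
    rw [Set.disjoint_left]
    rintro v ⟨i, hi, rfl⟩ ⟨i', hi', h4⟩
    have h5 := h.layi _ h1 i hi
    have h6 := h.layi _ h2 i' hi'
    simp only at h5 h6
    rw [← h4, h5] at h6
    subst h6
    apply h3
    have h7 : j = (j - i) + i := by omega
    rw [h7, Function.iterate_add_apply, h4, ← Function.iterate_add_apply]
  have hpS : ∀ p p' x y, (p, x) ∈ H → (p', y) ∈ H → p ∉ S0 y := by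
    rintro p p' x y h1 h2 ⟨i, hi, h4⟩
    have h5 := h.layi _ h2 i hi
    have h6 := h.layl _ h1
    simp only at h5 h6
    rw [← h4, h6] at h5
    subst h5
    have h7 := h.colr _ h1
    have h8 := h.colr _ h2
    have h9 := hcol _ _ (h.adj _ h1)
    simp only at h7 h8 h9
    rw [Function.iterate_zero, id_eq] at h4
    exact h9 (by rw [h4, h7, h8])
  have hS : ∀ p p' x y, (p, x) ∈ H → (p', y) ∈ H → p ≠ p' → π^[j] x ≠ π^[j] y →
      Disjoint (S p x) (S p' y) := by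
    intro p p' x y h1 h2 hpp h3
    rw [Set.disjoint_left]
    rintro v (rfl | hv) (rfl | hv')
    · exact hpp rfl
    · exact hpS _ _ _ _ h1 h2 hv'
    · exact hpS _ _ _ _ h2 h1 hv
    · exact Set.disjoint_left.1 (hS0 _ _ _ _ h1 h2 h3) hv hv'
  -- the pieces
  have hPr : ∀ p x, (p, x) ∈ H → ∀ T : Set V, π^[j] x ∈ T → Pj D col k j x T (r (π^[j] x)) := by
    intro p x h1 T hT
    obtain ⟨⟨z, hz, h2, h3⟩, -⟩ := hre' p x h1
    exact ⟨π^[j] x, z, hz, h2, hT, fun h4 => (h3 h4).elim, Or.inr (hk _ h1), hwalk p x h1 j le_rfl⟩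
  have hPa : ∀ p x, (p, x) ∈ H → Pj D col k j x (S p x) (D.arc s(p, x)) := by
    intro p x h1
    refine ⟨x, p, (h.adj _ h1).symm, ?_, Or.inr ⟨0, Nat.zero_le _, rfl⟩, fun _ => Or.inl rfl,
      Or.inl (Or.inl rfl), SimpleGraph.Walk.nil, by simp⟩
    rw [Sym2.eq_swap]
  have hPt : ∀ p x, (p, x) ∈ H → ∀ i < j,
      Pj D col k j x (S p x) (D.arc s(π^[i] x, π^[i + 1] x)) := by
    intro p x h1 i hi
    exact ⟨π^[i] x, π^[i + 1] x, h.tadj _ h1 i hi, subset_rfl, Or.inr ⟨i, hi.le, rfl⟩,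
      fun _ => Or.inr ⟨i + 1, hi, rfl⟩, Or.inl (Or.inr ⟨i + 1, hi, rfl⟩), hwalk p x h1 i hi.le⟩
  -- the arms
  let arm : V → V → Set (ℝ × ℝ) := fun p x => {z | z ∈ r (π^[j] x) ∨ z ∈ D.arc s(p, x) ∨
    ∃ i < j, z ∈ D.arc s(π^[i] x, π^[i + 1] x)}
  have harmPj : ∀ p x, (p, x) ∈ H → ∀ z ∈ arm p x, ∃ A, Pj D col k j x (S p x) A ∧ z ∈ A := by
    rintro p x h1 z (hz | hz | ⟨i, hi, hz⟩)
    · exact ⟨_, hPr p x h1 _ (Or.inr ⟨j, le_rfl, rfl⟩), hz⟩
    · exact ⟨_, hPa p x h1, hz⟩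
    · exact ⟨_, hPt p x h1 i hi, hz⟩
  have harm : ∀ p p' x y, (p, x) ∈ H → (p', y) ∈ H → p ≠ p' → π^[j] x ≠ π^[j] y →
      (∃ w : G.Walk x y, w.length ≤ 4) → Disjoint (arm p x) (arm p' y) := by
    intro p p' x y h1 h2 h3 h4 h5
    rw [Set.disjoint_left]
    intro z hz hz'
    obtain ⟨A, hA, hzA⟩ := harmPj p x h1 z hz
    obtain ⟨B, hB, hzB⟩ := harmPj p' y h2 z hz'
    exact Set.disjoint_left.1 (pj_disj hD hcol hA hB (hS _ _ _ _ h1 h2 h3 h4) h5) hzA hzB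
  have hge : ∀ p x, (p, x) ∈ H → ∀ z ∈ arm p x, c ≤ φ z ∧ (φ z = c → z = e (π^[j] x)) := by
    rintro p x h1 z (hz | hz | ⟨i, hi, hz⟩)
    · exact ⟨(hre' p x h1).2.1 z hz, (hre' p x h1).2.2.2.1 z hz⟩
    · have h2 := h.edge _ h1 z hz
      exact ⟨h2.le, fun h3 => (h2.ne' h3).elim⟩
    · have h2 := h.tarc _ h1 i hi z hz
      exact ⟨h2.le, fun h3 => (h2.ne' h3).elim⟩
  have hjoin : ∀ p x, (p, x) ∈ H → JoinedIn (arm p x) (e (π^[j] x)) (D.pt p) := by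
    intro p x h1
    have h2 : ∀ i ≤ j, JoinedIn (arm p x) (D.pt p) (D.pt (π^[i] x)) := by
      intro i
      induction i with
      | zero =>
        intro _
        exact (D.joinedIn_arc (h.adj _ h1)).mono fun z hz => Or.inr (Or.inl hz)
      | succ i ih =>
        intro hi
        exact (ih (by omega)).trans ((D.joinedIn_arc (h.tadj _ h1 i hi)).mono
          fun z hz => Or.inr (Or.inr ⟨i, hi, hz⟩))
    exact (((hre' p x h1).2.2.2.2.mono fun z hz => Or.inl hz).symm).trans (h2 j le_rfl).symm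
  -- short walks
  have hadj : ∀ p q, (p, q) ∈ H → G.Adj p q := fun p q h1 => h.adj _ h1
  have hw2 : ∀ p x y, (p, x) ∈ H → (p, y) ∈ H → ∃ w : G.Walk x y, w.length ≤ 4 := by
    intro p x y h1 h2
    exact ⟨.cons (hadj _ _ h1).symm (.cons (hadj _ _ h2) .nil), by simp⟩
  have hw4 : ∀ p p' m x y, (p, x) ∈ H → (p, m) ∈ H → (p', m) ∈ H → (p', y) ∈ H →
      ∃ w : G.Walk x y, w.length ≤ 4 := by
    intro p p' m x y h1 h2 h3 h4
    exact ⟨.cons (hadj _ _ h1).symm (.cons (hadj _ _ h2) (.cons (hadj _ _ h3).symm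
      (.cons (hadj _ _ h4) .nil))), by simp⟩
  -- the boundary points
  obtain ⟨Z, hZ⟩ : ∃ Z : Set (ℝ × ℝ), Z = ((H.image fun p => e (π^[j] p.2) : Finset (ℝ × ℝ)) :
      Set (ℝ × ℝ)) := ⟨_, rfl⟩
  have hZm : ∀ p x, (p, x) ∈ H → e (π^[j] x) ∈ Z := by
    intro p x h1
    rw [hZ]
    exact Finset.mem_coe.2 (Finset.mem_image.2 ⟨(p, x), h1, rfl⟩)
  obtain ⟨t, htinj, htc⟩ := hgood Z (by rw [hZ]; exact Finset.finite_toSet _) (by
    intro z hz
    rw [hZ] at hz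
    obtain ⟨p, hp, rfl⟩ := Finset.mem_image.1 (Finset.mem_coe.1 hz)
    exact (hre' p.1 p.2 hp).2.2.1)
  refine WHyp.bound (e := fun q => t (e (π^[j] q))) ⟨?_, ?_⟩
  · intro p p' q hpp h1 h2 a b' u h3 h4 h5 hab haq hbq huq hua hub
    have hra : π^[j] a ≠ π^[j] q := fun h6 => haq (hroots p _ _ h3 h1 h6)
    have hrb : π^[j] b' ≠ π^[j] q := fun h6 => hbq (hroots p _ _ h4 h1 h6)
    have hrau : π^[j] a ≠ π^[j] u := fun h6 => hua (by rw [h6])
    have hrbu : π^[j] b' ≠ π^[j] u := fun h6 => hub (by rw [h6])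
    refine htc (arm p a ∪ arm p b') (arm p' q ∪ arm p' u) _ _ _ _ ?_ ?_ ?_ ?_ (hZm _ _ h3)
      (hZm _ _ h4) (hZm _ _ h1) (hZm _ _ h5) ?_ ?_ ?_
    · rintro z (hz | hz)
      · exact (hge _ _ h3 z hz).1
      · exact (hge _ _ h4 z hz).1
    · rintro z (hz | hz)
      · exact (hge _ _ h2 z hz).1
      · exact (hge _ _ h5 z hz).1
    · rintro z (hz | hz) hzc
      · rw [(hge _ _ h3 z hz).2 hzc]
        exact hZm _ _ h3
      · rw [(hge _ _ h4 z hz).2 hzc]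
        exact hZm _ _ h4
    · rintro z (hz | hz) hzc
      · rw [(hge _ _ h2 z hz).2 hzc]
        exact hZm _ _ h2
      · rw [(hge _ _ h5 z hz).2 hzc]
        exact hZm _ _ h5
    · exact ((hjoin _ _ h3).mono Set.subset_union_left).trans
        ((hjoin _ _ h4).symm.mono Set.subset_union_right)
    · exact ((hjoin _ _ h2).mono Set.subset_union_left).trans
        ((hjoin _ _ h5).symm.mono Set.subset_union_right)
    · exact Set.disjoint_union_left.2 ⟨Set.disjoint_union_right.2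
        ⟨harm _ _ _ _ h3 h2 hpp hra (hw2 _ _ _ h3 h1),
        harm _ _ _ _ h3 h5 hpp hrau (hw4 _ _ _ _ _ h3 h1 h2 h5)⟩,
        Set.disjoint_union_right.2
        ⟨harm _ _ _ _ h4 h2 hpp hrb (hw2 _ _ _ h4 h1),
        harm _ _ _ _ h4 h5 hpp hrbu (hw4 _ _ _ _ _ h4 h1 h2 h5)⟩⟩
  · intro p q q' h1 h2 h3 h4
    have hrq : π^[j] q ≠ π^[j] q' := fun h6 => h3 (hroots p _ _ h1 h2 h6)
    have h5 : e (π^[j] q) = e (π^[j] q') := htinj (hZm _ _ h1) (hZm _ _ h2) h4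
    have hd : Disjoint (r (π^[j] q)) (r (π^[j] q')) :=
      pj_disj hD hcol (hPr _ _ h1 (S0 q) ⟨j, le_rfl, rfl⟩) (hPr _ _ h2 (S0 q') ⟨j, le_rfl, rfl⟩)
        (hS0 _ _ _ _ h1 h2 hrq) (hw2 _ _ _ h1 h2)
    have h8 : e (π^[j] q) ∈ r (π^[j] q) := (hre' _ _ h1).2.2.2.2.target_mem
    have h9 : e (π^[j] q') ∈ r (π^[j] q') := (hre' _ _ h2).2.2.2.2.target_mem
    rw [← h5] at h9
    exact Set.disjoint_left.1 hd h8 h9

end Pool.Agent.MP_245544_coT
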