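import Pool.Agent.Lib.MP_245544_coI.TDefs
import Pool.Agent.Lib.MP_245544_coT.CrossL

namespace Pool.Agent.MP_245544_coT

theorem continuous_nsq (z₁ : ℝ × ℝ) : Continuous (nsq z₁) := by
  unfold nsq
  fun_prop

theorem goodRegion_fn (δ c : ℝ) : GoodRegion (fn δ) c := by
  intro Z _ hZc
  refine ⟨Prod.snd, ?_, ?_⟩
  · intro z hz w hw h
    have h1 := (hZc z hz).trans (hZc w hw).symm
    unfold fn at h1
    have h2 : z.2 = w.2 := h
    rw [h2] at h1
    exact Prod.ext (add_right_cancel h1) h2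
  · intro K L a b q u hK hL _ _ ha hb hq hu hab hqu hd
    exact btw_iff_of_disjoint hK hL hd (hZc a ha) (hZc b hb) (hZc q hq) (hZc u hu) hab hqu

/-- The vector `z - z₁` as a complex number. -/
private noncomputable def cx (z₁ z : ℝ × ℝ) : ℂ := ⟨z.1 - z₁.1, z.2 - z₁.2⟩

private theorem cx_inj {z₁ z w : ℝ × ℝ} (h : cx z₁ z = cx z₁ w) : z = w := by
  have h1 := congrArg Complex.re h
  have h2 := congrArg Complex.im h
  simp only [cx] at h1 h2
  exact Prod.ext (by linarith) (by linarith)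

private theorem cx_nsq (z₁ z : ℝ × ℝ) : Complex.normSq (cx z₁ z) = nsq z₁ z := by
  rw [Complex.normSq_apply]
  simp only [cx, nsq]
  ring

private theorem continuous_cx (z₁ : ℝ × ℝ) : Continuous (cx z₁) := by
  have h : cx z₁ = fun z => (((z.1 - z₁.1 : ℝ) : ℂ)) + (((z.2 - z₁.2 : ℝ) : ℂ)) * Complex.I := by
    funext z
    apply Complex.ext <;> simp [cx]
  rw [h]
  fun_prop

/-- The Cayley transform with pole `w₀`. -/
private noncomputable def cay (w₀ w : ℂ) : ℂ := (w + w₀) / (w - w₀)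

private theorem cay_inj {w₀ w w' : ℂ} (h0 : w₀ ≠ 0) (hw : w ≠ w₀) (hw' : w' ≠ w₀)
    (h : cay w₀ w = cay w₀ w') : w = w' := by
  unfold cay at h
  rw [div_eq_div_iff (sub_ne_zero.2 hw) (sub_ne_zero.2 hw')] at h
  have h1 : 2 * w₀ * (w' - w) = 0 := by linear_combination h
  rcases mul_eq_zero.1 h1 with h2 | h2
  · rcases mul_eq_zero.1 h2 with h3 | h3
    · exact absurd h3 two_ne_zero
    · exact absurd h3 h0
  · exact (sub_eq_zero.1 h2).symm

private theorem cay_re (w₀ w : ℂ) : (cay w₀ w).re =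
    (Complex.normSq w - Complex.normSq w₀) / Complex.normSq (w - w₀) := by
  unfold cay
  rw [Complex.div_re, ← add_div]
  congr 1
  rw [Complex.normSq_apply, Complex.normSq_apply]
  simp only [Complex.add_re, Complex.sub_re, Complex.add_im, Complex.sub_im]
  ring

/-- The complement of an open disc. -/
theorem goodRegion_disc (z₁ : ℝ × ℝ) {ρ : ℝ} (hρ : 0 < ρ) : GoodRegion (nsq z₁) ρ := by
  intro Z hZf hZc
  -- a point of the circle outside `Z`
  obtain ⟨z₀, hz₀, hz₀Z⟩ : ∃ z₀, nsq z₁ z₀ = ρ ∧ z₀ ∉ Z := by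
    have hinf : (Set.Icc z₁.1 (z₁.1 + Real.sqrt ρ)).Infinite := by
      apply Set.Icc_infinite
      have := Real.sqrt_pos.2 hρ
      linarith
    obtain ⟨x, hx, hxZ⟩ := hinf.exists_notMem_finite (hZf.image Prod.fst)
    have hx2 : (x - z₁.1) ^ 2 ≤ ρ := by
      have h1 : 0 ≤ x - z₁.1 := by linarith [hx.1]
      have h2 : x - z₁.1 ≤ Real.sqrt ρ := by linarith [hx.2]
      calc (x - z₁.1) ^ 2 ≤ Real.sqrt ρ ^ 2 := pow_le_pow_left₀ h1 h2 2
        _ = ρ := Real.sq_sqrt hρ.le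
    refine ⟨(x, z₁.2 + Real.sqrt (ρ - (x - z₁.1) ^ 2)), ?_, fun h => hxZ ⟨_, h, rfl⟩⟩
    have h3 : Real.sqrt (ρ - (x - z₁.1) ^ 2) ^ 2 = ρ - (x - z₁.1) ^ 2 :=
      Real.sq_sqrt (by linarith)
    simp only [nsq]
    rw [add_sub_cancel_left, h3]
    ring
  set w₀ := cx z₁ z₀ with hw₀
  have hn0 : Complex.normSq w₀ = ρ := by rw [hw₀, cx_nsq, hz₀]
  have hw0 : w₀ ≠ 0 := by
    intro h
    rw [h, map_zero] at hn0
    exact hρ.ne hn0
  set Ψ : ℝ × ℝ → ℂ := fun z => cay w₀ (cx z₁ z) with hΨ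
  set Φ : ℝ × ℝ → ℝ × ℝ := fun z => ((Ψ z).re, (Ψ z).im) with hΦ
  have hne : ∀ z, z ≠ z₀ → cx z₁ z ≠ w₀ := fun z h h' => h (cx_inj h')
  have hΨinj : ∀ z z', z ≠ z₀ → z' ≠ z₀ → Ψ z = Ψ z' → z = z' := fun z z' h h' e =>
    cx_inj (cay_inj hw0 (hne z h) (hne z' h') e)
  have hΦinj : ∀ z z', z ≠ z₀ → z' ≠ z₀ → Φ z = Φ z' → z = z' := fun z z' h h' e =>
    hΨinj z z' h h' (Complex.ext (congrArg Prod.fst e) (congrArg Prod.snd e))
  have hre : ∀ z, (Ψ z).re = (nsq z₁ z - ρ) / Complex.normSq (cx z₁ z - w₀) := by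
    intro z
    rw [hΨ]
    change (cay w₀ (cx z₁ z)).re = _
    rw [cay_re, cx_nsq, hn0]
  have hf : ∀ z, ρ ≤ nsq z₁ z → 0 ≤ fn 0 (Φ z) := by
    intro z hz
    have h1 : fn 0 (Φ z) = (Ψ z).re := by simp [fn, hΦ]
    rw [h1, hre]
    exact div_nonneg (by linarith) (Complex.normSq_nonneg _)
  have hfZ : ∀ z ∈ Z, fn 0 (Φ z) = 0 := by
    intro z hz
    have h1 : fn 0 (Φ z) = (Ψ z).re := by simp [fn, hΦ]
    rw [h1, hre, hZc z hz, sub_self, zero_div]
  have hcont : ∀ K : Set (ℝ × ℝ), (∀ z ∈ K, z ≠ z₀) → ContinuousOn Φ K := by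
    intro K hK
    have h1 : ContinuousOn Ψ K := by
      apply ContinuousOn.div
      · exact ((continuous_cx z₁).add continuous_const).continuousOn
      · exact ((continuous_cx z₁).sub continuous_const).continuousOn
      · intro z hz
        exact sub_ne_zero.2 (hne z (hK z hz))
    exact (Complex.continuous_re.comp_continuousOn h1).prodMk
      (Complex.continuous_im.comp_continuousOn h1)
  have hZ0 : ∀ z ∈ Z, z ≠ z₀ := fun z hz h => hz₀Z (h ▸ hz)
  refine ⟨fun z => (Φ z).2, ?_, ?_⟩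
  · intro z hz w hw h
    refine hΦinj z w (hZ0 z hz) (hZ0 w hw) (Prod.ext ?_ h)
    have h1 := hfZ z hz
    have h2 := hfZ w hw
    simp only [fn, zero_mul, add_zero] at h1 h2
    rw [h1, h2]
  · intro K L a b q u hK hL hKZ hLZ ha hb hq hu hab hqu hd
    have hK0 : ∀ z ∈ K, z ≠ z₀ := by
      intro z hz h
      exact hz₀Z (h ▸ hKZ z hz (by rw [h, hz₀]))
    have hL0 : ∀ z ∈ L, z ≠ z₀ := by
      intro z hz h
      exact hz₀Z (h ▸ hLZ z hz (by rw [h, hz₀]))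
    refine btw_iff_of_disjoint (δ := 0) (c := 0) (K := Φ '' K) (L := Φ '' L) ?_ ?_ ?_ (hfZ a ha)
      (hfZ b hb) (hfZ q hq) (hfZ u hu) (hab.map_continuousOn (hcont K hK0))
      (hqu.map_continuousOn (hcont L hL0))
    · rintro _ ⟨z, hz, rfl⟩
      exact hf z (hK z hz)
    · rintro _ ⟨z, hz, rfl⟩
      exact hf z (hL z hz)
    · rw [Set.disjoint_left]
      rintro _ ⟨z, hz, rfl⟩ ⟨w, hw, e⟩
      have h1 := hΦinj w z (hL0 w hw) (hK0 z hz) e
      rw [h1] at hw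
      exact Set.disjoint_left.1 hd hz hw

end Pool.Agent.MP_245544_coT
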