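import Pool.Agent.Lib.MP_245544_coI.TDefs
import Pool.Agent.Lib.MP_245544_coT.Keys

namespace Pool.Agent.MP_245544_coT

open Filter Topology

private theorem nsq_pos {a z : ℝ × ℝ} (h : z ≠ a) : 0 < nsq a z := by
  have h1 : 0 ≤ (z.1 - a.1) ^ 2 := sq_nonneg _
  have h2 : 0 ≤ (z.2 - a.2) ^ 2 := sq_nonneg _
  refine lt_of_le_of_ne (add_nonneg h1 h2) fun h3 => h ?_
  have h4 : (z.1 - a.1) ^ 2 + (z.2 - a.2) ^ 2 = 0 := h3.symm
  have h5 : (z.1 - a.1) ^ 2 = 0 := by linarith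
  have h6 : (z.2 - a.2) ^ 2 = 0 := by linarith
  exact Prod.ext (sub_eq_zero.1 (pow_eq_zero_iff two_ne_zero |>.1 h5))
    (sub_eq_zero.1 (pow_eq_zero_iff two_ne_zero |>.1 h6))

private theorem small_event {K : Set (ℝ × ℝ)} (hK : IsCompact K) (a : ℝ × ℝ) (ha : a ∉ K) :
    ∀ᶠ ρ in 𝓝[>] (0 : ℝ), ∀ z ∈ K, ρ < nsq a z := by
  rcases K.eq_empty_or_nonempty with rfl | hne
  · exact Eventually.of_forall fun ρ z hz => absurd hz (Set.notMem_empty z)
  · have hcont : Continuous (nsq a) := by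
      unfold nsq
      fun_prop
    obtain ⟨b, hb, hbmin⟩ := hK.exists_isMinOn hne hcont.continuousOn
    have h1 : 0 < nsq a b := nsq_pos fun h => ha (h ▸ hb)
    filter_upwards [Ioo_mem_nhdsGT h1] with ρ hρ z hz
    exact lt_of_lt_of_le hρ.2 (hbmin hz)

variable {V : Type} {G : SimpleGraph V}

/-- A small disc around the point of `v` meets only the arcs of the edges at `v` and contains no other
vertex point. -/
theorem Drawing.exists_small_disc [Finite V] (D : Drawing G) (v : V) :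
    ∃ ρ : ℝ, 0 < ρ ∧ (∀ e ∈ G.edgeSet, v ∉ e → ∀ z ∈ D.arc e, ρ < nsq (D.pt v) z) ∧
      ∀ w, w ≠ v → ρ < nsq (D.pt v) (D.pt w) := by
  have : Finite (Sym2 V) := Quot.finite _
  have h1 : ∀ᶠ ρ in 𝓝[>] (0 : ℝ), ∀ e : Sym2 V, e ∈ G.edgeSet → v ∉ e →
      ∀ z ∈ D.arc e, ρ < nsq (D.pt v) z := by
    rw [eventually_all]
    intro e
    by_cases he : e ∈ G.edgeSet
    · by_cases hv : v ∈ e
      · exact Eventually.of_forall fun ρ _ h => absurd hv h
      · filter_upwards [small_event (D.isCompact_arc he) (D.pt v)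
          (fun h => hv (D.avoid e he v h))] with ρ hρ _ _
        exact hρ
    · exact Eventually.of_forall fun ρ h => absurd h he
  have h2 : ∀ᶠ ρ in 𝓝[>] (0 : ℝ), ∀ w : V, w ≠ v → ρ < nsq (D.pt v) (D.pt w) := by
    rw [eventually_all]
    intro w
    by_cases hw : w = v
    · exact Eventually.of_forall fun ρ h => absurd hw h
    · have h3 : 0 < nsq (D.pt v) (D.pt w) := nsq_pos fun h => hw (D.pt_injective h)
      filter_upwards [Ioo_mem_nhdsGT h3] with ρ hρ _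
      exact hρ.2
  obtain ⟨ρ, ⟨h3, h4⟩, h5⟩ := ((h1.and h2).and self_mem_nhdsWithin).exists
  exact ⟨ρ, h5, h3, h4⟩

end Pool.Agent.MP_245544_coT
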