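import Pool.Agent.Lib.MP_245544_coI.CleanT
import Pool.Agent.Lib.MP_245544_coI.CleanC
import Pool.Agent.Lib.MP_245544_coI.Region
import Pool.Agent.Lib.MP_245544_coI.Small

namespace Pool.Agent.MP_245544_coT

private theorem nsq_self (z : ℝ × ℝ) : nsq z z = 0 := by
  unfold nsq
  ring

private theorem pt_mem_arc {V : Type} {G : SimpleGraph V} (D : Drawing G) {u v : V}
    (h : G.Adj u v) : D.pt v ∈ D.arc s(u, v) := by
  obtain ⟨γ, -, -, -, h1, hr⟩ := D.isArc u v h
  rw [← hr, ← h1]
  exact ⟨1, rfl⟩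

/-- The pairs below one root `m`, with the complement of a small disc around `m` as region. -/
private theorem ray_step {V : Type} {G : SimpleGraph V} {D : Drawing G} {col : V → Bool}
    {φ : ℝ × ℝ → ℝ} {c : ℝ} {j : ℕ} {π : V → V} {lay : V → ℕ} {b : Bool} {H : Finset (V × V)}
    (h : RayHyp D col φ c (j + 1) π lay b H) {m : V} (hm : ∀ p ∈ H, π^[j + 1] p.2 = m) {ρ : ℝ}
    (hρ : 0 < ρ) (hd : ∀ e ∈ G.edgeSet, m ∉ e → ∀ z ∈ D.arc e, ρ < nsq (D.pt m) z) :
    RayHyp D col (nsq (D.pt m)) ρ j π lay b H := by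
  have hlm : ∀ p ∈ H, lay m = j + 1 := by
    intro p hp
    rw [← hm p hp]
    exact h.layi p hp (j + 1) le_rfl
  constructor
  · exact h.adj
  · exact h.colr
  · exact h.layl
  · intro p hp z hz
    refine hd _ (h.adj p hp) (fun hmem => ?_) z hz
    rcases Sym2.mem_iff.1 hmem with h1 | h1
    · have h2 := hlm p hp
      rw [h1, h.layl p hp] at h2
      omega
    · have h2 := hlm p hp
      have h3 : lay p.2 = 0 := h.layi p hp 0 (Nat.zero_le _)
      rw [h1, h3] at h2
      omega
  · intro p hp i hi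
    exact h.layi p hp i (by omega)
  · intro p hp i hi
    exact h.tadj p hp i (by omega)
  · intro p hp i hi z hz
    refine hd _ (h.tadj p hp i (by omega)) (fun hmem => ?_) z hz
    rcases Sym2.mem_iff.1 hmem with h1 | h1
    · have h2 := hlm p hp
      rw [h1, h.layi p hp i (by omega)] at h2
      omega
    · have h2 := hlm p hp
      rw [h1, h.layi p hp (i + 1) (by omega)] at h2
      omega
  · intro p hp
    have h1 := h.tadj p hp j (by omega)
    rw [hm p hp] at h1
    exact ⟨m, h1, D.pt m, pt_mem_arc D h1, by rw [nsq_self]; exact hρ.le⟩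

/-- Lemma C for rays of length `j`. -/
theorem ray_bound (j : ℕ) : ∃ α β : ℕ, 1 ≤ α ∧ ∀ (V : Type) [Finite V] [DecidableEq V]
    (G : SimpleGraph V) (D : Drawing G) (col : V → Bool) (φ : ℝ × ℝ → ℝ) (c : ℝ) (π : V → V) (lay : V → ℕ)
    (b : Bool) (H : Finset (V × V)), D.NearPlane (2 * j + 4) → (∀ u v, G.Adj u v → col u ≠ col v) →
    Continuous φ → GoodRegion φ c → (∀ v, φ (D.pt v) ≠ c) → RayHyp D col φ c j π lay b H →
    H.card ≤ α * (H.image Prod.fst).card + β * (H.image Prod.snd).card := by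
  induction j with
  | zero =>
    refine ⟨3, 1, by norm_num, fun V _ _ G D col φ c π lay b H hD hcol hφ hgood hc h => ?_⟩
    rw [one_mul]
    exact h.clean hD hcol hφ hgood hc fun p q q' _ _ hq => hq
  | succ j ih =>
    obtain ⟨α, β, hα, ih⟩ := ih
    refine ⟨3 * α, α + β * (α + 1), by omega,
      fun V _ _ G D col φ c π lay b H hD hcol hφ hgood hc h => ?_⟩
    refine clean_count H (fun q => π^[j + 1] q) hα (fun H' hs m hm => ?_)
      (fun H' hs hroots => (h.mono hs).clean hD hcol hφ hgood hc hroots)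
    obtain ⟨ρ, hρ, hd, hv⟩ := D.exists_small_disc m
    refine ih V G D col (nsq (D.pt m)) ρ π lay b H' (fun e he e' he' hw => ?_) hcol
      (continuous_nsq _) (goodRegion_disc _ hρ) (fun v => ?_) (ray_step (h.mono hs) hm hρ hd)
    · obtain ⟨x, hx, x', hx', w, hw⟩ := hw
      exact hD e he e' he' ⟨x, hx, x', hx', w, by omega⟩
    · by_cases hvm : v = m
      · rw [hvm, nsq_self]
        exact hρ.ne
      · exact (hv v hvm).ne'

end Pool.Agent.MP_245544_coT
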