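import Pool.Agent.Lib.MP_245544_coI.LemB

namespace Pool.Agent.MP_245544_coT

/-- The radii `0, 2, 6, 14, 30, …`. -/
def rr : ℕ → ℕ
  | 0 => 0
  | k + 1 => 2 * (rr k + 1)

theorem rr_eq (k : ℕ) : rr k + 2 = 2 ^ (k + 1) := by
  induction k with
  | zero => rfl
  | succ k ih =>
    have h1 : rr (k + 1) = 2 * (rr k + 1) := rfl
    rw [h1, pow_succ 2 (k + 1), ← ih]
    ring

private theorem it_even (k : ℕ) : rr k % 2 = 0 := by
  cases k with
  | zero => rfl
  | succ k =>
    have h1 : rr (k + 1) = 2 * (rr k + 1) := rfl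
    omega

private theorem it_mono (k : ℕ) : Monotone fun T : ℕ => 1 + (Nat.log 2)^[k] T := by
  intro a b hab
  exact Nat.add_le_add_left
    (Monotone.iterate (fun x y hxy => Nat.log_mono_right hxy) k hab) 1

/-- Sparse structures: the iterated logarithm. -/
theorem iter_bound (k : ℕ) : ∀ C : ℕ, ∃ A : ℕ, ∀ (V : Type) [DecidableEq V] (I : Finset (V × V))
    (f g : V → ℕ) (T : ℕ), Spr (rr k) C I f g → (∀ p ∈ I, f p.1 ≤ g p.2) → (∀ p ∈ I, g p.2 ≤ T) →
    I.card ≤ A * (1 + (Nat.log 2)^[k + 1] T) * nn I := by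
  induction k with
  | zero =>
    intro C
    refine ⟨3 * C, ?_⟩
    intro V _ I f g T h hfg hT
    exact h.log_bound hfg hT
  | succ k ih =>
    intro C
    obtain ⟨r, hr⟩ : ∃ r, r = rr k := ⟨_, rfl⟩
    have hrr : rr (k + 1) = r + 1 + (r + 1) := by
      have h1 : rr (k + 1) = 2 * (rr k + 1) := rfl
      rw [h1, hr]
      ring
    have hr2 : r % 2 = 0 := by
      rw [hr]
      exact it_even k
    obtain ⟨K, hK⟩ : ∃ K, K = 2 * r + 2 := ⟨_, rfl⟩
    obtain ⟨A1, hA1⟩ := ih (C * (4 * K + 1))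
    obtain ⟨A2, hA2⟩ := ih (C * (2 * K + 1) * (r / 2 + 1))
    rw [← hr] at hA1 hA2
    refine ⟨A2 + (r + 1) * (C + 2 * A1), ?_⟩
    intro V _ I f g T h hfg hT
    rw [hrr] at h
    obtain ⟨b, hb⟩ : ∃ b : ℕ → ℕ, b = fun T => 1 + (Nat.log 2)^[k + 1] T := ⟨_, rfl⟩
    have hbm : Monotone b := by
      rw [hb]
      exact it_mono (k + 1)
    have hb1 : ∀ T, b T = 1 + (Nat.log 2)^[k + 1] T := fun T => by rw [hb]
    have hgoal : 1 + (Nat.log 2)^[k + 1 + 1] T = b (Nat.log 2 T) := by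
      rw [hb1, ← Function.iterate_succ_apply]
    rw [hgoal]
    -- class A in every structure of the chain
    have hcls : ∀ (I' : Finset (V × V)) (f' g' : V → ℕ), Spr (r + 2) C I' f' g' →
        (∀ p ∈ I', f' p.1 ≤ g' p.2) → (∀ p ∈ I', g' p.2 ≤ T) →
        (clsA I' f' g').card ≤ 2 * A1 * b (Nat.log 2 T) * nn I' := by
      intro I' f' g' h' hfg' hT'
      refine h'.card_clsA b hbm ?_ hfg' hT' hr2 hK.ge
      intro I'' f'' g'' T'' hs hfg'' hT''
      rw [hb1]
      exact hA1 V I'' f'' g'' T'' hs hfg'' hT''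
    have h1 := chain_card (n := r + 1) hcls h hfg hT
    have h2 : Spr r C I f g := h.le (by omega)
    have h3 := h2.chain_spr (K := K) hfg hT hr2 (by omega)
    have hJ : chJ (r + 1) I f g ⊆ I := chJ_subset _ _ _ _
    have h4 := hA2 V (chJ (r + 1) I f g) _ _ (Nat.log K T) h3 (fun p hp => posB_le hfg hp)
      (fun p _ => Nat.sub_le _ _)
    rw [← hb1] at h4
    have h5 : b (Nat.log K T) ≤ b (Nat.log 2 T) :=
      hbm (Nat.log_anti_left (by norm_num) (by omega : 2 ≤ K))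
    have h6 : (chJ (r + 1) I f g).card ≤ A2 * b (Nat.log 2 T) * nn I :=
      h4.trans (Nat.mul_le_mul (Nat.mul_le_mul_left _ h5) (nn_mono hJ))
    have h7 : 1 ≤ b (Nat.log 2 T) := by
      rw [hb1]
      omega
    generalize b (Nat.log 2 T) = B at h1 h6 h7 ⊢
    generalize nn I = N at h1 h6 ⊢
    refine h1.trans ?_
    have h8 : C ≤ C * B := Nat.le_mul_of_pos_right _ h7
    calc (chJ (r + 1) I f g).card + (r + 1) * ((C + 2 * A1 * B) * N)
        ≤ A2 * B * N + (r + 1) * ((C * B + 2 * A1 * B) * N) := by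
          refine Nat.add_le_add h6 (Nat.mul_le_mul_left _ (Nat.mul_le_mul_right _ ?_))
          omega
      _ = (A2 + (r + 1) * (C + 2 * A1)) * B * N := by ring

end Pool.Agent.MP_245544_coT
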