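import Pool.Agent.Lib.MP_245544_coI.Level1

namespace Pool.Agent.MP_245544_coT

variable {V : Type} [DecidableEq V]

/-- The incidences of class A: `0 < g l - f x < E₃ l - g l`. -/
def clsA (I : Finset (V × V)) (f g : V → ℕ) : Finset (V × V) :=
  I.filter (fun p => f p.1 < g p.2 ∧ g p.2 - f p.1 < E 2 I g p.2 - g p.2)

/-- The new positions in class A. -/
def posA (K : ℕ) (I : Finset (V × V)) (f g : V → ℕ) (v : V) : ℕ := Nat.log K (up I g v - f v) / 2

/-- The part of class A with `log_K (E₂ x - x) ≡ ε mod 2`. -/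
def clsA' (K ε : ℕ) (I : Finset (V × V)) (f g : V → ℕ) : Finset (V × V) :=
  (clsA I f g).filter (fun p => Nat.log K (up I g p.1 - f p.1) % 2 = ε)

private theorem lA_sub1 {I : Finset (V × V)} {f g : V → ℕ} : clsA I f g ⊆ I :=
  Finset.filter_subset _ _

private theorem lA_sub2 {K ε : ℕ} {I : Finset (V × V)} {f g : V → ℕ} :
    clsA' K ε I f g ⊆ clsA I f g :=
  Finset.filter_subset _ _

omit [DecidableEq V] in
private theorem lA_side {r : ℕ} (hr : r % 2 = 0) (p : V × V) : side r p = p.2 := by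
  rw [side, if_pos hr]

private theorem lA_E2 (I : Finset (V × V)) (g : V → ℕ) : E 2 I g = up (tr I) (up I g) := rfl

/-- A left vertex with large position. -/
private theorem lA_base {K ε s : ℕ} {I : Finset (V × V)} {f g : V → ℕ} {v l : V}
    (hp : (v, l) ∈ clsA' K ε I f g) (hs : s ≤ posA K I f g v) (hK : 2 ≤ K) :
    2 * g l + K ^ (2 * s + ε) ≤ 2 * E 2 I g l := by
  obtain ⟨h1, h2⟩ := Finset.mem_filter.1 hp
  obtain ⟨h3, h4, h5⟩ := Finset.mem_filter.1 h1
  simp only at h2 h4 h5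
  have h6 : g l ≤ up I g v := le_up g h3
  have h7 : up I g v ≤ E 2 I g l := by
    rw [lA_E2]
    exact le_up (up I g) (mem_tr.2 h3)
  have h8 : K ^ (2 * s + ε) ≤ up I g v - f v := by
    have h9 : K ^ Nat.log K (up I g v - f v) ≤ up I g v - f v :=
      Nat.pow_log_le_self K (by omega)
    refine le_trans (Nat.pow_le_pow_right (by omega) ?_) h9
    unfold posA at hs
    omega
  omega

/-- The claim. -/
private theorem lA_claim {K ε s B : ℕ} {I : Finset (V × V)} {f g : V → ℕ}
    (hfg : ∀ p ∈ I, f p.1 ≤ g p.2) (hK : 2 ≤ K)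
    (hB : ∀ v l, (v, l) ∈ clsA' K ε I f g → posA K I f g v < s → up I g v - f v ≤ B) (j : ℕ) :
    ∀ v l, (v, l) ∈ clsA' K ε I f g →
      s ≤ E (2 * j) (clsA' K ε I f g) (up (tr (clsA' K ε I f g)) (posA K I f g)) l →
      2 * g l + K ^ (2 * s + ε) ≤ 2 * E (2 * j + 2) I g l + 2 * j * B := by
  obtain ⟨J, hJ⟩ : ∃ J, J = clsA' K ε I f g := ⟨_, rfl⟩
  rw [← hJ] at hB ⊢
  have hJI : J ⊆ I := by
    rw [hJ]
    exact lA_sub2.trans lA_sub1
  induction j with
  | zero =>
    intro v l hp hs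
    obtain ⟨v', h1, h2⟩ := exists_up (posA K I f g) (mem_tr.2 hp)
    have h3 : s ≤ posA K I f g v' := by
      rw [← h2]
      exact hs
    have h4 := mem_tr.1 h1
    rw [hJ] at h4
    have h5 := lA_base h4 h3 hK
    simpa using h5
  | succ j ih =>
    intro v0 l hp hs
    have e1 : ∀ (I : Finset (V × V)) (g : V → ℕ), E (2 * (j + 1)) I g =
        up (tr I) (E (2 * j + 1) I g) := by
      intro I g
      have h := E_succ (2 * j + 1) I g
      rw [if_neg (by omega)] at h
      exact h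
    have e2 : ∀ (i : ℕ) (I : Finset (V × V)) (g : V → ℕ), E (2 * i + 1) I g =
        up I (E (2 * i) I g) := by
      intro i I g
      have h := E_succ (2 * i) I g
      rw [if_pos (by omega)] at h
      exact h
    rw [e1] at hs
    obtain ⟨v, h1, h2⟩ := exists_up (E (2 * j + 1) J (up (tr J) (posA K I f g))) (mem_tr.2 hp)
    rw [h2, e2] at hs
    have h3 := mem_tr.1 h1
    obtain ⟨l1, h4, h5⟩ := exists_up (E (2 * j) J (up (tr J) (posA K I f g))) h3
    rw [h5] at hs
    have h6 := ih v l1 h4 hs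
    rcases le_or_gt s (posA K I f g v) with h7 | h7
    · rw [hJ] at h3
      have h8 := lA_base h3 h7 hK
      rw [← hJ] at h3
      have h9 := E_le_of_le (r := 2) (r' := 2 * (j + 1) + 2) (by omega) g (hJI h3)
      rw [lA_side (by norm_num), lA_side (by omega)] at h9
      simp only at h9
      omega
    · have h8 := hB v l1 h4 h7
      have h9 : g l ≤ up I g v := le_up g (hJI h3)
      have h10 : f v ≤ g l1 := hfg _ (hJI h4)
      have h11 : f v ≤ g l := hfg _ (hJI h3)
      have h12 : E (2 * j + 2) I g l1 ≤ E (2 * (j + 1) + 2) I g l := by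
        have h13 : E (2 * (j + 1) + 2) I g = up (tr I) (E (2 * (j + 1) + 1) I g) := by
          have h := E_succ (2 * (j + 1) + 1) I g
          rw [if_neg (by omega)] at h
          exact h
        rw [h13, e2]
        refine le_trans ?_ (le_up _ (mem_tr.2 (hJI h3)))
        exact le_up _ (hJI h4)
      have h14 : 2 * (j + 1) * B = 2 * j * B + 2 * B := by ring
      rw [h14]
      omega

/-- Class A is a sparse structure with logarithmic positions. -/
theorem Spr.clsA' {r C K ε : ℕ} {I : Finset (V × V)} {f g : V → ℕ} (h : Spr (r + 2) C I f g)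
    (hfg : ∀ p ∈ I, f p.1 ≤ g p.2) (hr : r % 2 = 0) (hK : 2 * r + 2 ≤ K) (hε : ε < 2) :
    Spr r (C * (4 * K + 1)) (clsA' K ε I f g) (posA K I f g)
      (up (tr (Pool.Agent.MP_245544_coT.clsA' K ε I f g)) (posA K I f g)) := by
  intro s H hH hs
  obtain ⟨J, hJ⟩ : ∃ J, J = Pool.Agent.MP_245544_coT.clsA' K ε I f g := ⟨_, rfl⟩
  have hJI : J ⊆ I := by
    rw [hJ]
    exact lA_sub2.trans lA_sub1
  rw [← hJ] at hH
  have hK2 : 2 ≤ K := by omega
  -- the left vertices
  have hlog : ∀ v l, (v, l) ∈ J → Nat.log K (up I g v - f v) = 2 * posA K I f g v + ε ∧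
      f v < g l ∧ g l ≤ up I g v := by
    intro v l hp
    rw [hJ] at hp
    obtain ⟨h1, h2⟩ := Finset.mem_filter.1 hp
    obtain ⟨h3, h4, -⟩ := Finset.mem_filter.1 h1
    simp only at h2 h4
    refine ⟨?_, h4, le_up g h3⟩
    unfold posA
    omega
  obtain ⟨B, hBdef⟩ : ∃ B, B = if s = 0 then 0 else K ^ (2 * s + ε - 1) := ⟨_, rfl⟩
  have hKB : K * B ≤ K ^ (2 * s + ε) := by
    rw [hBdef]
    split_ifs with h0
    · simp
    · have h1 : 2 * s + ε = (2 * s + ε - 1) + 1 := by omega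
      conv_rhs => rw [h1, pow_succ]
      rw [mul_comm]
  have hB : ∀ v l, (v, l) ∈ Pool.Agent.MP_245544_coT.clsA' K ε I f g → posA K I f g v < s →
      up I g v - f v ≤ B := by
    intro v l hp hv
    rw [← hJ] at hp
    obtain ⟨h1, -, -⟩ := hlog v l hp
    have h2 : up I g v - f v < K ^ (Nat.log K (up I g v - f v) + 1) :=
      Nat.lt_pow_succ_log_self (by omega) _
    rw [hBdef, if_neg (by omega)]
    refine h2.le.trans (Nat.pow_le_pow_right (by omega) ?_)
    omega
  obtain ⟨M, hM⟩ : ∃ M, M = K ^ (2 * s + ε) := ⟨_, rfl⟩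
  have hcl : ∀ p ∈ H, 4 * g p.2 + M ≤ 4 * E (r + 2) I g p.2 := by
    intro p hp
    obtain ⟨v, l⟩ := p
    obtain ⟨-, h1⟩ := hs _ hp
    rw [lA_side hr] at h1
    have h2 : r = 2 * (r / 2) := by omega
    rw [h2] at h1
    have h3 := lA_claim hfg hK2 hB (r / 2) v l (by rw [← hJ]; exact hH hp) h1
    rw [← h2, ← hM] at h3
    simp only
    have h4 : 2 * r * B ≤ M := by
      rw [hM]
      exact (Nat.mul_le_mul_right B (by omega)).trans hKB
    have h5 : 2 * r * B = 2 * (r * B) := by ring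
    rw [h5] at h4
    omega
  have h1 := h.window (J := H) (hH.trans hJI) (w := M / 4 + 1) (m := 4 * K + 1) g f
    (by omega) (by omega) ?_ ?_
  · exact h1
  · intro p hp s' hs1 hs2
    rw [lA_side (by omega)]
    have h2 := hcl p hp
    have h3 := hfg p (hJI (hH hp))
    constructor
    · omega
    · omega
  · intro p hp
    obtain ⟨v, l⟩ := p
    refine ⟨hfg _ (hJI (hH hp)), ?_⟩
    obtain ⟨h2, h3, h4⟩ := hlog v l (hH hp)
    obtain ⟨h5, -⟩ := hs _ hp
    simp only at h5 ⊢
    have h6 : up I g v - f v < K ^ (Nat.log K (up I g v - f v) + 1) :=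
      Nat.lt_pow_succ_log_self (by omega) _
    have h7 : up I g v - f v < K * M := by
      refine lt_of_lt_of_le h6 ?_
      have h8 : K * M = K ^ (2 * s + ε + 1) := by
        rw [hM, pow_succ, mul_comm]
      rw [h8]
      exact Nat.pow_le_pow_right (by omega) (by omega)
    have h9 : M ≤ 4 * (M / 4 + 1) := by omega
    have h10 : K * M ≤ 4 * K * (M / 4 + 1) := by
      calc K * M ≤ K * (4 * (M / 4 + 1)) := Nat.mul_le_mul_left _ h9
        _ = 4 * K * (M / 4 + 1) := by ring
    have h11 : (4 * K + 1) * (M / 4 + 1) = 4 * K * (M / 4 + 1) + (M / 4 + 1) := by ring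
    rw [h11]
    omega

/-- The number of incidences of class A. -/
theorem Spr.card_clsA {r C K A T : ℕ} (b : ℕ → ℕ) (hb : Monotone b)
    (hTH : ∀ (I' : Finset (V × V)) (f' g' : V → ℕ) (T' : ℕ), Spr r (C * (4 * K + 1)) I' f' g' →
      (∀ p ∈ I', f' p.1 ≤ g' p.2) → (∀ p ∈ I', g' p.2 ≤ T') → I'.card ≤ A * b T' * nn I')
    {I : Finset (V × V)} {f g : V → ℕ} (h : Spr (r + 2) C I f g)
    (hfg : ∀ p ∈ I, f p.1 ≤ g p.2) (hT : ∀ p ∈ I, g p.2 ≤ T) (hr : r % 2 = 0) (hK : 2 * r + 2 ≤ K) :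
    (clsA I f g).card ≤ 2 * A * b (Nat.log 2 T) * nn I := by
  have _hb := hb
  have hcl : ∀ ε < 2, (Pool.Agent.MP_245544_coT.clsA' K ε I f g).card ≤
      A * b (Nat.log 2 T) * nn I := by
    intro ε hε
    have h1 := hTH _ _ _ (Nat.log 2 T) (h.clsA' hfg hr hK hε) ?_ ?_
    · exact h1.trans (Nat.mul_le_mul_left _ (nn_mono (lA_sub2.trans lA_sub1)))
    · intro p hp
      exact le_up _ (mem_tr.2 hp)
    · intro p hp
      refine up_le fun v hv => ?_
      have hv' := lA_sub1 (lA_sub2 (mem_tr.1 hv))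
      refine (Nat.div_le_self _ _).trans ?_
      refine (Nat.log_anti_left (by norm_num) (by omega : 2 ≤ K)).trans ?_
      refine Nat.log_mono_right ((Nat.sub_le _ _).trans (up_le fun w hw => hT _ hw))
  have hcov : clsA I f g ⊆ Pool.Agent.MP_245544_coT.clsA' K 0 I f g ∪
      Pool.Agent.MP_245544_coT.clsA' K 1 I f g := by
    intro p hp
    rw [Finset.mem_union]
    rcases Nat.mod_two_eq_zero_or_one (Nat.log K (up I g p.1 - f p.1)) with h1 | h1
    · exact Or.inl (Finset.mem_filter.2 ⟨hp, h1⟩)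
    · exact Or.inr (Finset.mem_filter.2 ⟨hp, h1⟩)
  have h1 := hcl 0 (by norm_num)
  have h2 := hcl 1 (by norm_num)
  have h3 := (Finset.card_le_card hcov).trans (Finset.card_union_le _ _)
  have h4 : 2 * A * b (Nat.log 2 T) * nn I = 2 * (A * b (Nat.log 2 T) * nn I) := by ring
  rw [h4]
  omega

end Pool.Agent.MP_245544_coT
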