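import Pool.Agent.Lib.MP_245544_coI.Chain

namespace Pool.Agent.MP_245544_coT

variable {V : Type} [DecidableEq V]

omit [DecidableEq V] in
private theorem lB_even {r : ℕ} (hr : r % 2 = 0) (p : V × V) : side r p = p.2 := by
  rw [side, if_pos hr]

omit [DecidableEq V] in
private theorem lB_odd {r : ℕ} (hr : r % 2 = 1) (p : V × V) : side r p = p.1 := by
  rw [side, if_neg (by omega)]

omit [DecidableEq V] in
private theorem lB_two (r : ℕ) (p : V × V) : side (r + 2) p = side r p := by
  unfold side
  rw [Nat.add_mod_right]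

/-- The differences decrease. -/
private theorem lB_D {n : ℕ} {I : Finset (V × V)} {f g : V → ℕ} (hfg : ∀ p ∈ I, f p.1 ≤ g p.2)
    {p : V × V} (hp : p ∈ chJ n I f g) {i : ℕ} (hi : i < n) :
    chF (i + 3) I f g (side i p) - chF (i + 1) I f g (side i p) ≤
      chF (i + 2) I f g (side (i + 1) p) - chF i I f g (side (i + 1) p) := by
  have h1 := chain_gap hp hi
  have h2 := chain_le hfg hp (i := i + 1) (by omega)
  rw [lB_two] at h2
  have h3 : chF (i + 1) I f g (side i p) ≤ chF (i + 2) I f g (side (i + 1) p) := h2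
  omega

/-- The chain of values. -/
private theorem lB_zero {n : ℕ} {I : Finset (V × V)} {f g : V → ℕ} (hfg : ∀ p ∈ I, f p.1 ≤ g p.2)
    {p : V × V} (hp : p ∈ chJ n I f g) (i : ℕ) (hi : i ≤ n + 1) :
    chF 0 I f g p.1 ≤ chF (i + 1) I f g (side i p) := by
  induction i with
  | zero => exact chain_le hfg hp (by omega)
  | succ i ih =>
    have h1 := ih (by omega)
    have h2 := chain_le hfg hp hi
    rw [lB_two] at h2
    exact h1.trans h2

theorem posB_le {r K T : ℕ} {I : Finset (V × V)} {f g : V → ℕ} (hfg : ∀ p ∈ I, f p.1 ≤ g p.2)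
    {p : V × V} (hp : p ∈ chJ (r + 1) I f g) : posB K T 0 I f g p.1 ≤ posB K T 1 I f g p.2 := by
  have h1 := lB_D hfg hp (i := 0) (by omega)
  unfold posB
  have h2 : chF 3 I f g p.2 - chF 1 I f g p.2 ≤ chF 2 I f g p.1 - chF 0 I f g p.1 := h1
  exact Nat.sub_le_sub_left (Nat.log_mono_right h2) _

/-- What remains after `r + 1` steps is a sparse structure with logarithmic positions. -/
theorem Spr.chain_spr {r C K T : ℕ} {I : Finset (V × V)} {f g : V → ℕ} (h : Spr r C I f g)
    (hfg : ∀ p ∈ I, f p.1 ≤ g p.2) (hT : ∀ p ∈ I, g p.2 ≤ T) (hr : r % 2 = 0) (hK : 2 ≤ K) :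
    Spr r (C * (2 * K + 1) * (r / 2 + 1)) (chJ (r + 1) I f g) (posB K T 0 I f g) (posB K T 1 I f g) := by
  intro s H hH hs
  have hJI : chJ (r + 1) I f g ⊆ I := chJ_subset _ _ _ _
  have hHI : H ⊆ I := hH.trans hJI
  obtain ⟨κ, hκ⟩ : ∃ κ, κ = Nat.log K T - s := ⟨_, rfl⟩
  obtain ⟨q, hq⟩ : ∃ q, q = K ^ κ := ⟨_, rfl⟩
  obtain ⟨k, hk⟩ : ∃ k, k = K ^ (κ + 1) := ⟨_, rfl⟩
  have hkq : k = K * q := by rw [hk, hq, pow_succ, mul_comm]
  have hq1 : 1 ≤ q := by
    rw [hq]
    exact Nat.one_le_pow _ _ (by omega)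
  have hk1 : 1 ≤ k := by
    rw [hk]
    exact Nat.one_le_pow _ _ (by omega)
  -- the first difference is large, the last one is small
  have hfirst : ∀ p ∈ H, q ≤ chF 2 I f g p.1 - chF 0 I f g p.1 := by
    intro p hp
    have h1 := (hs p hp).1
    have h2 := chain_gap (hH hp) (i := 0) (by omega)
    have h3 := chain_le hfg (hH hp) (i := 1) (by omega)
    have h2' : chF 0 I f g p.1 < chF 1 I f g p.2 := h2.1
    have h3' : chF 1 I f g p.2 ≤ chF 2 I f g p.1 := h3
    unfold posB at h1
    have h4 : κ ≤ Nat.log K (chF 2 I f g p.1 - chF 0 I f g p.1) := by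
      rw [hκ]
      have h5 : Nat.log K T - Nat.log K (chF 2 I f g p.1 - chF 0 I f g p.1) ≤ s := h1
      omega
    rw [hq]
    refine (Nat.pow_le_pow_right (by omega) h4).trans ?_
    exact Nat.pow_log_le_self K (by omega)
  have hlast : ∀ p ∈ H, chF (r + 3) I f g p.2 - chF (r + 1) I f g p.2 < k := by
    intro p hp
    have h1 := (hs p hp).2
    have h2 := E_le_family r (I := chJ (r + 1) I f g)
      (γ := fun i v => Nat.log K T - Nat.log K (chF (i + 3) I f g v - chF (i + 1) I f g v)) (by
        intro i hi p' hp'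
        have h3 := lB_D hfg hp' (i := i + 1) (by omega)
        rw [lB_two] at h3
        exact Nat.sub_le_sub_left (Nat.log_mono_right h3) _) (hH hp)
    have h3 : s ≤ Nat.log K T - Nat.log K (chF (r + 3) I f g (side r p) -
        chF (r + 1) I f g (side r p)) := h1.trans h2
    rw [lB_even hr] at h3
    have h4 : chF (r + 3) I f g p.2 ≤ T := by
      refine (chF_le_E (r + 2) I f g p.2).trans ?_
      have h5 := E_le (r + 2) hT (hHI hp)
      rwa [lB_even (by omega)] at h5
    have h5 : Nat.log K (chF (r + 3) I f g p.2 - chF (r + 1) I f g p.2) ≤ Nat.log K T :=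
      Nat.log_mono_right ((Nat.sub_le _ _).trans h4)
    have h6 : Nat.log K (chF (r + 3) I f g p.2 - chF (r + 1) I f g p.2) ≤ κ := by
      rw [hκ]
      omega
    rw [hk]
    refine lt_of_lt_of_le (Nat.lt_pow_succ_log_self (by omega : 1 < K) _) ?_
    exact Nat.pow_le_pow_right (by omega) (by omega)
  -- the parts
  obtain ⟨P, hP⟩ : ∃ P : ℕ → Finset (V × V), ∀ i, P i = H.filter (fun p =>
      chF (2 * i + 3) I f g p.2 - chF (2 * i + 1) I f g p.2 < k ∧
      ∀ j < i, k ≤ chF (2 * j + 3) I f g p.2 - chF (2 * j + 1) I f g p.2) := ⟨_, fun _ => rfl⟩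
  have hPH : ∀ i, P i ⊆ H := fun i => by
    rw [hP]
    exact Finset.filter_subset _ _
  have hcov : H ⊆ (Finset.range (r / 2 + 1)).biUnion P := by
    intro p hp
    have hex : ∃ i, chF (2 * i + 3) I f g p.2 - chF (2 * i + 1) I f g p.2 < k := by
      refine ⟨r / 2, ?_⟩
      have h1 : 2 * (r / 2) = r := by omega
      rw [h1]
      exact hlast p hp
    classical
    rw [Finset.mem_biUnion]
    refine ⟨Nat.find hex, ?_, ?_⟩
    · rw [Finset.mem_range, Nat.lt_succ_iff]
      refine Nat.find_min' hex ?_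
      have h1 : 2 * (r / 2) = r := by omega
      rw [h1]
      exact hlast p hp
    · rw [hP, Finset.mem_filter]
      refine ⟨hp, Nat.find_spec hex, fun j hj => ?_⟩
      exact not_lt.1 (Nat.find_min hex hj)
  have hpart : ∀ i < r / 2 + 1, (P i).card ≤ C * (2 * K + 1) * nn H := by
    intro i hi
    rcases Nat.eq_zero_or_pos i with h0 | h0
    · -- the first part
      subst h0
      obtain ⟨w, hw⟩ : ∃ w, w = (q + 1) / 2 := ⟨_, rfl⟩
      have h1 := h.window (J := P 0) ((hPH 0).trans hHI) (w := w) (m := 2 * K + 1)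
        (fun l => chF 1 I f g l - w) (fun x => chF 2 I f g x - (k + w)) (by omega) (by omega) ?_ ?_
      · exact h1.trans (Nat.mul_le_mul_left _ (nn_mono (hPH 0)))
      · intro p hp s' hs1 hs2
        have hpH := hPH 0 hp
        have h2 := chain_gap (hH hpH) (i := 0) (by omega)
        have h2a : chF 0 I f g p.1 < chF 1 I f g p.2 := h2.1
        have h2b : chF 3 I f g p.2 - chF 1 I f g p.2 ≤ chF 1 I f g p.2 - chF 0 I f g p.1 := h2.2
        have h3 : chF 2 I f g p.1 ≤ chF 3 I f g p.2 := chain_le hfg (hH hpH) (i := 2) (by omega)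
        have h4 := hfirst p hpH
        have h5 : f p.1 = chF 0 I f g p.1 := rfl
        have h6 : chF 1 I f g p.2 = g p.2 := rfl
        have h7 := E_le_of_le (Nat.zero_le r) g (hHI hpH)
        have h8 : g p.2 ≤ E r I g (side r p) := h7
        rw [h5]
        omega
      · intro p hp
        have hpH := hPH 0 hp
        have h2 := chain_gap (hH hpH) (i := 0) (by omega)
        have h2a : chF 0 I f g p.1 < chF 1 I f g p.2 := h2.1
        have h2b : chF 3 I f g p.2 - chF 1 I f g p.2 ≤ chF 1 I f g p.2 - chF 0 I f g p.1 := h2.2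
        have h3 : chF 2 I f g p.1 ≤ chF 3 I f g p.2 := chain_le hfg (hH hpH) (i := 2) (by omega)
        have h3' : chF 1 I f g p.2 ≤ chF 2 I f g p.1 := chain_le hfg (hH hpH) (i := 1) (by omega)
        have h4 := hfirst p hpH
        have h5 : chF 3 I f g p.2 - chF 1 I f g p.2 < k := by
          rw [hP] at hp
          exact (Finset.mem_filter.1 hp).2.1
        have h6 : k ≤ 2 * K * w := by
          rw [hkq]
          have h7 : q ≤ 2 * w := by omega
          calc K * q ≤ K * (2 * w) := Nat.mul_le_mul_left _ h7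
            _ = 2 * K * w := by ring
        have h7 : (2 * K + 1) * w = 2 * K * w + w := by ring
        rw [h7]
        generalize 2 * K * w = z at h6
        omega
    · -- the other parts
      have h1 := h.window (J := P i) ((hPH i).trans hHI) (w := k) (m := 2)
        (fun l => chF (2 * i + 1) I f g l - k) (fun x => chF (2 * i + 2) I f g x - 2 * k)
        hk1 (by norm_num) ?_ ?_
      · refine h1.trans ((Nat.mul_le_mul_left _ (nn_mono (hPH i))).trans ?_)
        exact Nat.mul_le_mul_right _ (Nat.mul_le_mul_left _ (by omega))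
      · intro p hp s' hs1 hs2
        have hpH := hPH i hp
        have h2 : k ≤ chF (2 * i + 1) I f g p.2 - chF (2 * i - 1) I f g p.2 := by
          rw [hP] at hp
          have h3 := (Finset.mem_filter.1 hp).2.2 (i - 1) (by omega)
          have h4 : 2 * (i - 1) + 3 = 2 * i + 1 := by omega
          have h5 : 2 * (i - 1) + 1 = 2 * i - 1 := by omega
          rw [h4, h5] at h3
          exact h3
        have h3 := lB_zero hfg (hH hpH) (2 * i - 2) (by omega)
        rw [lB_even (by omega)] at h3
        have h4 : 2 * i - 2 + 1 = 2 * i - 1 := by omega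
        rw [h4] at h3
        have h5 : f p.1 = chF 0 I f g p.1 := rfl
        have h6 := chF_le_E (2 * i) I f g p.2
        have h7 := E_le_of_le (r := 2 * i) (r' := r) (by omega) g (hHI hpH)
        rw [lB_even (by omega)] at h7
        rw [h5]
        omega
      · intro p hp
        have hpH := hPH i hp
        have h2 : k ≤ chF (2 * i + 1) I f g p.2 - chF (2 * i - 1) I f g p.2 ∧
            chF (2 * i + 3) I f g p.2 - chF (2 * i + 1) I f g p.2 < k := by
          rw [hP] at hp
          have h3 := (Finset.mem_filter.1 hp).2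
          have h4 := h3.2 (i - 1) (by omega)
          have h5 : 2 * (i - 1) + 3 = 2 * i + 1 := by omega
          have h6 : 2 * (i - 1) + 1 = 2 * i - 1 := by omega
          rw [h5, h6] at h4
          exact ⟨h4, h3.1⟩
        have h3 := chain_le hfg (hH hpH) (i := 2 * i + 1) (by omega)
        rw [lB_even (by omega), lB_odd (by omega)] at h3
        have h4 := chain_le hfg (hH hpH) (i := 2 * i + 2) (by omega)
        rw [lB_odd (by omega), lB_even (by omega)] at h4
        have h5 : chF (2 * i + 1) I f g p.2 ≤ chF (2 * i + 2) I f g p.1 := h3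
        have h6 : chF (2 * i + 2) I f g p.1 ≤ chF (2 * i + 3) I f g p.2 := h4
        omega
  have h1 : H.card ≤ (r / 2 + 1) * (C * (2 * K + 1) * nn H) := by
    refine (Finset.card_le_card hcov).trans (Finset.card_biUnion_le.trans ?_)
    refine (Finset.sum_le_card_nsmul _ _ _ fun i hi => hpart i (Finset.mem_range.1 hi)).trans ?_
    rw [Finset.card_range, smul_eq_mul]
  refine h1.trans (le_of_eq ?_)
  ring

end Pool.Agent.MP_245544_coT
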