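import Pool.Agent.Lib.MP_245544_coI.Window

namespace Pool.Agent.MP_245544_coT

variable {V : Type} [DecidableEq V]

private theorem l1_E0 {r : ℕ} {I : Finset (V × V)} (g : V → ℕ) {p : V × V} (hp : p ∈ I) :
    g p.2 ≤ E r I g (side r p) :=
  E_le_of_le (Nat.zero_le r) g hp

/-- Incidences without delay. -/
theorem Spr.ties {r C : ℕ} {I : Finset (V × V)} {f g : V → ℕ} (h : Spr r C I f g) :
    (I.filter (fun p => f p.1 = g p.2)).card ≤ C * nn I := by
  have h1 := h.window (J := I.filter (fun p => f p.1 = g p.2)) (Finset.filter_subset _ _)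
    (w := 1) (m := 1) g f le_rfl le_rfl ?_ ?_
  · rw [mul_one] at h1
    exact h1.trans (Nat.mul_le_mul_left _ (nn_mono (Finset.filter_subset _ _)))
  · intro p hp s hs1 hs2
    obtain ⟨hp1, hp2⟩ := Finset.mem_filter.1 hp
    have h2 := l1_E0 (r := r) g hp1
    omega
  · intro p hp
    obtain ⟨hp1, hp2⟩ := Finset.mem_filter.1 hp
    omega

/-- The logarithmic bound. -/
theorem Spr.log_bound {r C : ℕ} {I : Finset (V × V)} {f g : V → ℕ} (h : Spr r C I f g)
    (hfg : ∀ p ∈ I, f p.1 ≤ g p.2) {T : ℕ} (hT : ∀ p ∈ I, g p.2 ≤ T) :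
    I.card ≤ 3 * C * (1 + Nat.log 2 T) * nn I := by
  obtain ⟨J, hJ⟩ : ∃ J : ℕ → Finset (V × V), ∀ i, J i =
      I.filter (fun p => f p.1 < g p.2 ∧ Nat.log 2 (g p.2 - f p.1) = i) := ⟨_, fun _ => rfl⟩
  have hsub : ∀ i, J i ⊆ I := fun i => by
    rw [hJ]
    exact Finset.filter_subset _ _
  have hcl : ∀ i, (J i).card ≤ 2 * C * nn I := by
    intro i
    have h1 := h.window (J := J i) (hsub i) (w := 2 ^ i) (m := 2) (fun l => g l - 2 ^ i) f
      Nat.one_le_two_pow (by norm_num) ?_ ?_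
    · rw [mul_comm C 2] at h1
      exact h1.trans (Nat.mul_le_mul_left _ (nn_mono (hsub i)))
    · intro p hp s hs1 hs2
      rw [hJ] at hp
      obtain ⟨hp1, hp2, hp3⟩ := Finset.mem_filter.1 hp
      have h2 := l1_E0 (r := r) g hp1
      have h3 : 2 ^ i ≤ g p.2 - f p.1 := by
        rw [← hp3]
        exact Nat.pow_log_le_self 2 (by omega)
      generalize 2 ^ i = w at hs1 hs2 h3
      omega
    · intro p hp
      rw [hJ] at hp
      obtain ⟨hp1, hp2, hp3⟩ := Finset.mem_filter.1 hp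
      have h3 : 2 ^ i ≤ g p.2 - f p.1 := by
        rw [← hp3]
        exact Nat.pow_log_le_self 2 (by omega)
      have h4 : g p.2 - f p.1 < 2 ^ (i + 1) := by
        rw [← hp3]
        exact Nat.lt_pow_succ_log_self (by norm_num) _
      rw [pow_succ] at h4
      generalize 2 ^ i = w at h3 h4
      omega
  have hcov : I ⊆ I.filter (fun p => f p.1 = g p.2) ∪
      (Finset.range (Nat.log 2 T + 1)).biUnion J := by
    intro p hp
    rw [Finset.mem_union, Finset.mem_filter, Finset.mem_biUnion]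
    rcases Nat.eq_or_lt_of_le (hfg p hp) with h1 | h1
    · exact Or.inl ⟨hp, h1⟩
    · right
      refine ⟨Nat.log 2 (g p.2 - f p.1), ?_, ?_⟩
      · rw [Finset.mem_range, Nat.lt_succ_iff]
        exact Nat.log_mono_right ((Nat.sub_le _ _).trans (hT p hp))
      · rw [hJ]
        exact Finset.mem_filter.2 ⟨hp, h1, rfl⟩
  have h1 : I.card ≤ C * nn I + (Nat.log 2 T + 1) * (2 * C * nn I) := by
    refine (Finset.card_le_card hcov).trans ((Finset.card_union_le _ _).trans
      (Nat.add_le_add h.ties ?_))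
    refine (Finset.card_biUnion_le).trans ?_
    refine (Finset.sum_le_card_nsmul _ _ _ fun i _ => hcl i).trans ?_
    rw [Finset.card_range, smul_eq_mul]
  refine h1.trans ?_
  nlinarith [Nat.zero_le (C * nn I * Nat.log 2 T)]

end Pool.Agent.MP_245544_coT
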