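import Mathlib

/-! Iterated logarithms: comparison of the iterates of `Nat.log 2` and of `Real.log`. -/

namespace Pool.Agent.MP_245544_coT

open Asymptotics Filter

theorem tendsto_log_iter (j : ℕ) : Tendsto (fun n : ℕ => Real.log^[j] (n : ℝ)) atTop atTop := by
  induction j with
  | zero => exact tendsto_natCast_atTop_atTop
  | succ j ih =>
    simp only [Function.iterate_succ_apply']
    exact Real.tendsto_log_atTop.comp ih

theorem natLog_iter_isBigO (j : ℕ) :
    (fun n : ℕ => (((Nat.log 2)^[j] n : ℕ) : ℝ)) =O[atTop] (fun n : ℕ => Real.log^[j] (n : ℝ)) := by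
  induction j with
  | zero => exact isBigO_refl _ _
  | succ j ih =>
    obtain ⟨C, hC, hb⟩ := ih.exists_pos
    have hb' := hb.bound
    refine IsBigO.of_bound (2 * (Real.log (C + 1) + 1)) ?_
    have h1 := (tendsto_log_iter (j + 1)).eventually_ge_atTop 1
    have h2 := (tendsto_log_iter j).eventually_ge_atTop 1
    filter_upwards [hb', h1, h2] with n h3 h4 h5
    simp only [Function.iterate_succ_apply'] at h4 ⊢
    set a := (Nat.log 2)^[j] n with ha
    set x := Real.log^[j] (n : ℝ) with hx
    rw [Real.norm_of_nonneg (Nat.cast_nonneg _), Real.norm_of_nonneg (by linarith)] at h3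
    rw [Real.norm_of_nonneg (Nat.cast_nonneg _), Real.norm_of_nonneg (by linarith)]
    have hC1 : 0 ≤ Real.log (C + 1) := Real.log_nonneg (by linarith)
    have hlog2 : (1 : ℝ) / 2 < Real.log 2 := by
      have := Real.log_two_gt_d9
      linarith
    rcases Nat.eq_zero_or_pos a with h0 | h0
    · rw [h0, Nat.log_zero_right]
      simp only [Nat.cast_zero]
      positivity
    · have h6 : (Nat.log 2 a : ℝ) ≤ Real.logb 2 a := Real.natLog_le_logb a 2
      have ha0 : (0 : ℝ) < a := by exact_mod_cast h0
      have h7 : Real.log a ≤ Real.log (C + 1) + Real.log x := by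
        rw [← Real.log_mul (by linarith) (by linarith)]
        refine Real.log_le_log ha0 (h3.trans ?_)
        nlinarith
      have h8 : Real.logb 2 a ≤ 2 * Real.log a := by
        have h9 : 0 ≤ Real.log a := Real.log_nonneg (by exact_mod_cast h0)
        rw [Real.logb, div_le_iff₀ (by linarith)]
        nlinarith
      nlinarith

end Pool.Agent.MP_245544_coT
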