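import Pool.Agent.Lib.MP_245544_coI.Iter
import Pool.Agent.Lib.MP_245544_coI.Asm

namespace Pool.Agent.MP_245544_coT

/-- The main theorem: for crossing distance at least `2 ^ (j + 1) + 5` the `j`-fold iterated logarithm. -/
theorem maxEdges_iter {j k : ℕ} (hj : 1 ≤ j) (hk : 2 ^ (j + 1) + 5 ≤ k) :
    ∃ C : ℕ, ∀ n, maxEdges k n ≤ C * n * (1 + (Nat.log 2)^[j] n) := by
  obtain ⟨i, rfl⟩ : ∃ i, j = i + 1 := ⟨j - 1, by omega⟩
  have h1 := rr_eq i
  have h2 : 2 * (rr i + 1) + 7 ≤ k := by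
    rw [pow_succ] at hk
    omega
  refine maxEdges_of_spr h2 (fun n => 1 + (Nat.log 2)^[i + 1] n)
    (fun n => Nat.le_add_right 1 _) ?_ (iter_bound i)
  intro a b hab
  exact Nat.add_le_add_left ((Nat.log_monotone.iterate (i + 1)) hab) 1

end Pool.Agent.MP_245544_coT
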