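import Pool.Agent.Lib.MP_245544_coT.Near
import Pool.Agent.Lib.MP_245544_coT.Ray
import Pool.Agent.Lib.MP_245544_coT.Order

/-! MP_245544_co, iterated logarithm: definitions of the topological part. -/

namespace Pool.Agent.MP_245544_coT

/-- Squared Euclidean distance to `z₁`. -/
def nsq (z₁ z : ℝ × ℝ) : ℝ := (z.1 - z₁.1) ^ 2 + (z.2 - z₁.2) ^ 2

/-- The crossing lemma holds in the region `{c ≤ φ}` (with respect to a coordinate `t` on its boundary)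
for sets that meet the boundary only in a given finite set `Z`. -/
def GoodRegion (φ : ℝ × ℝ → ℝ) (c : ℝ) : Prop :=
  ∀ Z : Set (ℝ × ℝ), Z.Finite → (∀ z ∈ Z, φ z = c) → ∃ t : ℝ × ℝ → ℝ, Set.InjOn t Z ∧
    ∀ (K L : Set (ℝ × ℝ)) (a b q u : ℝ × ℝ), (∀ z ∈ K, c ≤ φ z) → (∀ z ∈ L, c ≤ φ z) →
      (∀ z ∈ K, φ z = c → z ∈ Z) → (∀ z ∈ L, φ z = c → z ∈ Z) →
      a ∈ Z → b ∈ Z → q ∈ Z → u ∈ Z → JoinedIn K a b → JoinedIn L q u → Disjoint K L →
      (Btw (t a) (t b) (t q) ↔ Btw (t a) (t b) (t u))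

/-- Hypotheses of the weak form of Lemma C on a finite set `H` of pairs (values may coincide for
elements that are not partners of the same `p`). -/
structure WHyp {P Y : Type} (H : Finset (P × Y)) (e : Y → ℝ) : Prop where
  nc : ∀ p p' q, p ≠ p' → (p, q) ∈ H → (p', q) ∈ H → ∀ a b u, (p, a) ∈ H → (p, b) ∈ H → (p', u) ∈ H →
    a ≠ b → a ≠ q → b ≠ q → u ≠ q → e u ≠ e a → e u ≠ e b →
    (Btw (e a) (e b) (e q) ↔ Btw (e a) (e b) (e u))
  ne1 : ∀ p q q', (p, q) ∈ H → (p, q') ∈ H → q ≠ q' → e q ≠ e q'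

variable {V : Type} {G : SimpleGraph V}

/-- A set `H` of pairs `(p, q)` (edges inside `{c < φ}`) together with tree paths
`q, π q, …, π^[j] q` inside `{c < φ}` whose last vertex (the root) has an edge meeting `{φ ≤ c}`. -/
structure RayHyp (D : Drawing G) (col : V → Bool) (φ : ℝ × ℝ → ℝ) (c : ℝ) (j : ℕ) (π : V → V)
    (lay : V → ℕ) (b : Bool) (H : Finset (V × V)) : Prop where
  adj : ∀ p ∈ H, G.Adj p.1 p.2
  colr : ∀ p ∈ H, col p.2 = b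
  layl : ∀ p ∈ H, lay p.1 = 0
  edge : ∀ p ∈ H, ∀ z ∈ D.arc s(p.1, p.2), c < φ z
  layi : ∀ p ∈ H, ∀ i ≤ j, lay (π^[i] p.2) = i
  tadj : ∀ p ∈ H, ∀ i < j, G.Adj (π^[i] p.2) (π^[i + 1] p.2)
  tarc : ∀ p ∈ H, ∀ i < j, ∀ z ∈ D.arc s(π^[i] p.2, π^[i + 1] p.2), c < φ z
  root : ∀ p ∈ H, ∃ z, G.Adj (π^[j] p.2) z ∧ ∃ y ∈ D.arc s(π^[j] p.2, z), φ y ≤ c

theorem RayHyp.mono {D : Drawing G} {col : V → Bool} {φ : ℝ × ℝ → ℝ} {c : ℝ} {j : ℕ} {π : V → V}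
    {lay : V → ℕ} {b : Bool} {H H' : Finset (V × V)} (h : RayHyp D col φ c j π lay b H)
    (hs : H' ⊆ H) : RayHyp D col φ c j π lay b H' where
  adj p hp := h.adj p (hs hp)
  colr p hp := h.colr p (hs hp)
  layl p hp := h.layl p (hs hp)
  edge p hp := h.edge p (hs hp)
  layi p hp := h.layi p (hs hp)
  tadj p hp := h.tadj p (hs hp)
  tarc p hp := h.tarc p (hs hp)
  root p hp := h.root p (hs hp)

/-- The graph of the edges inside `{c < φ}`. -/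
def nG (D : Drawing G) (φ : ℝ × ℝ → ℝ) (c : ℝ) : SimpleGraph V where
  Adj u v := G.Adj u v ∧ ∀ z ∈ D.arc s(u, v), c < φ z
  symm := ⟨fun u v h => ⟨h.1.symm, by rw [Sym2.eq_swap]; exact h.2⟩⟩
  loopless := ⟨fun _ h => h.1.ne rfl⟩

/-- `v` is at distance at most `R` (in the graph of the edges inside `{c < φ}`) from a vertex which has
an edge meeting `{φ ≤ c}`. -/
def NReach (D : Drawing G) (φ : ℝ × ℝ → ℝ) (c : ℝ) (R : ℕ) (v : V) : Prop :=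
  ∃ u z, (∃ w : (nG D φ c).Walk v u, w.length ≤ R) ∧ G.Adj u z ∧ ∃ y ∈ D.arc s(u, z), φ y ≤ c

end Pool.Agent.MP_245544_coT
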