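import Pool.Agent.Lib.MP_245544_coI.CBasic
import Pool.Agent.Lib.MP_245544_coI.TDefs

namespace Pool.Agent.MP_245544_coT

variable {V : Type} {G : SimpleGraph V}

/-- `key e` is the lexicographically least point of the arc of `e`. -/
def IsKey (D : Drawing G) (key : Sym2 V → ℝ × ℝ) : Prop :=
  ∀ e ∈ G.edgeSet, key e ∈ D.arc e ∧ ∀ z ∈ D.arc e, toLex (key e) ≤ toLex z

/-- `rk`, `q` are ranks and thresholds for the keys. -/
structure IsRank [Fintype V] (G : SimpleGraph V) (key : Sym2 V → ℝ × ℝ) (rk : V → ℕ) (q : ℕ → ℝ × ℝ) :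
    Prop where
  le_card : ∀ v, rk v ≤ Fintype.card V
  pos : ∀ v, ∀ e ∈ G.edgeSet, v ∈ e → 1 ≤ rk v
  iff : ∀ s, 1 ≤ s → ∀ v, (s ≤ rk v ↔ ∃ e ∈ G.edgeSet, v ∈ e ∧ toLex (key e) ≤ toLex (q s))
  le_key : ∀ v, ∀ e ∈ G.edgeSet, v ∈ e → toLex (q (rk v)) ≤ toLex (key e)

/-- The pairs `(x, l)` of adjacent vertices with `col l = b` and `rk l < rk x`. -/
noncomputable def incd [Fintype V] (G : SimpleGraph V) (col : V → Bool) (rk : V → ℕ) (b : Bool) :
    Finset (V × V) := by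
  classical exact Finset.univ.filter (fun p => G.Adj p.1 p.2 ∧ col p.2 = b ∧ rk p.2 < rk p.1)

theorem mem_incd [Fintype V] {col : V → Bool} {rk : V → ℕ} {b : Bool} {p : V × V} :
    p ∈ incd G col rk b ↔ G.Adj p.1 p.2 ∧ col p.2 = b ∧ rk p.2 < rk p.1 := by
  classical simp [incd]

/-- The pairs `(x, l)` of adjacent vertices with `col l = b` and `rk l = rk x`. -/
noncomputable def tied [Fintype V] (G : SimpleGraph V) (col : V → Bool) (rk : V → ℕ) (b : Bool) :
    Finset (V × V) := by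
  classical exact Finset.univ.filter (fun p => G.Adj p.1 p.2 ∧ col p.2 = b ∧ rk p.2 = rk p.1)

theorem mem_tied [Fintype V] {col : V → Bool} {rk : V → ℕ} {b : Bool} {p : V × V} :
    p ∈ tied G col rk b ↔ G.Adj p.1 p.2 ∧ col p.2 = b ∧ rk p.2 = rk p.1 := by
  classical simp [tied]

end Pool.Agent.MP_245544_coT
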