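import Pool.Agent.Lib.MP_245544_coI.SDefs
import Pool.Agent.Lib.MP_245544_coI.Top
import Pool.Agent.Lib.MP_245544_coT.Keys

namespace Pool.Agent.MP_245544_coT

private theorem st_mono {V : Type} {G : SimpleGraph V} {D : Drawing G} {φ : ℝ × ℝ → ℝ} {c : ℝ}
    {r s : ℕ} (h : r ≤ s) {v : V} (hv : NReach D φ c r v) : NReach D φ c s v := by
  obtain ⟨u, z, ⟨w, hw⟩, h1⟩ := hv
  exact ⟨u, z, ⟨w, hw.trans h⟩, h1⟩

private theorem st_adj {V : Type} {G : SimpleGraph V} {D : Drawing G} {φ : ℝ × ℝ → ℝ} {c : ℝ}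
    {r : ℕ} {v v' : V} (h : (nG D φ c).Adj v v') (hv : NReach D φ c r v') :
    NReach D φ c (r + 1) v := by
  obtain ⟨u, z, ⟨w, hw⟩, h1⟩ := hv
  refine ⟨u, z, ⟨SimpleGraph.Walk.cons h w, ?_⟩, h1⟩
  rw [SimpleGraph.Walk.length_cons]
  omega

/-- Large values of `E` give vertices near the half plane. -/
private theorem st_reach {V : Type} [DecidableEq V] {G : SimpleGraph V} {D : Drawing G}
    {φ : ℝ × ℝ → ℝ} {c : ℝ} {I : Finset (V × V)} {rk : V → ℕ} {s : ℕ}
    (hI : ∀ p ∈ I, G.Adj p.1 p.2)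
    (hA : ∀ v u, rk v < s → G.Adj v u → (nG D φ c).Adj v u)
    (hB : ∀ v, s ≤ rk v → NReach D φ c 0 v) (r : ℕ) : ∀ p ∈ I,
    s ≤ E r I (up (tr I) rk) (side r p) → NReach D φ c (r + 1) (side r p) := by
  have step : ∀ (r : ℕ) (v w : V), G.Adj v w → NReach D φ c r w → NReach D φ c (r + 1) v := by
    intro r v w hvw hw
    by_cases hv : s ≤ rk v
    · exact st_mono (Nat.zero_le _) (hB v hv)
    · exact st_adj (hA v w (not_le.1 hv) hvw) hw
  induction r with
  | zero =>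
    intro p hp hs
    have h1 : (p.2, p.1) ∈ tr I := mem_tr.2 hp
    obtain ⟨x, hx, hxe⟩ := exists_up rk h1
    have h2 : side 0 p = p.2 := if_pos rfl
    have h3 : s ≤ rk x := by
      rw [← hxe]
      rw [h2] at hs
      exact hs
    rw [h2]
    exact step 0 p.2 x (hI _ (mem_tr.1 hx)).symm (hB x h3)
  | succ r ih =>
    intro p hp hs
    rw [E_succ] at hs
    rcases Nat.mod_two_eq_zero_or_one r with hr | hr
    · have h1 : ∀ q : V × V, side r q = q.2 := fun q => if_pos hr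
      have h2 : side (r + 1) p = p.1 := if_neg (by omega)
      rw [if_pos hr, h2] at hs
      obtain ⟨w, hw, hwe⟩ := exists_up (E r I (up (tr I) rk)) (show (p.1, p.2) ∈ I from hp)
      rw [hwe] at hs
      have h3 := ih (p.1, w) hw (by rw [h1]; exact hs)
      rw [h1] at h3
      rw [h2]
      exact step (r + 1) p.1 w (hI _ hw) h3
    · have h1 : ∀ q : V × V, side r q = q.1 := fun q => if_neg (by omega)
      have h2 : side (r + 1) p = p.2 := if_pos (by omega)
      rw [if_neg (by omega), h2] at hs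
      obtain ⟨w, hw, hwe⟩ := exists_up (E r I (up (tr I) rk))
        (show (p.2, p.1) ∈ tr I from mem_tr.2 hp)
      rw [hwe] at hs
      have h3 := ih (w, p.2) (mem_tr.1 hw) (by rw [h1]; exact hs)
      rw [h1] at h3
      rw [h2]
      exact step (r + 1) p.2 w (hI _ (mem_tr.1 hw)).symm h3

/-- The incidences of a drawing form a sparse structure. -/
theorem spr_of_drawing (r : ℕ) : ∃ C : ℕ, ∀ (V : Type) [Fintype V] [DecidableEq V]
    (G : SimpleGraph V) (D : Drawing G) (col : V → Bool) (key : Sym2 V → ℝ × ℝ) (rk : V → ℕ)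
    (q : ℕ → ℝ × ℝ) (b : Bool), D.NearPlane (2 * (r + 1) + 4) → (∀ u v, G.Adj u v → col u ≠ col v) →
    IsKey D key → IsRank G key rk q →
    Spr r C (incd G col rk b) rk (up (tr (incd G col rk b)) rk) := by
  obtain ⟨C, hC⟩ := top_bound (r + 1)
  refine ⟨C, ?_⟩
  intro V _ _ G D col key rk q b hNP hcol hkey hrk s H hHI hH
  rcases H.eq_empty_or_nonempty with rfl | ⟨p₀, hp₀⟩
  · rw [Finset.card_empty]
    exact Nat.zero_le _
  have hs1 : 1 ≤ s := by
    have h1 := (mem_incd.1 (hHI hp₀)).2.2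
    have h2 := (hH p₀ hp₀).1
    omega
  obtain ⟨δ, c, hδ, hc⟩ := D.exists_halfplane hkey (q s)
  have hA : ∀ v u, rk v < s → G.Adj v u → (nG D (fn δ) c).Adj v u := by
    intro v u hv hvu
    refine ⟨hvu, fun z hz => ?_⟩
    by_contra hcon
    have h1 := (hδ s(v, u) hvu).1 ⟨z, hz, not_lt.1 hcon⟩
    have h2 := (hrk.iff s hs1 v).2 ⟨s(v, u), hvu, Sym2.mem_mk_left _ _, h1⟩
    omega
  have hB : ∀ v, s ≤ rk v → NReach D (fn δ) c 0 v := by
    intro v hv
    obtain ⟨e, he, hve, hk⟩ := (hrk.iff s hs1 v).1 hv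
    obtain ⟨z, rfl⟩ := hve
    exact ⟨v, z, ⟨SimpleGraph.Walk.nil, le_rfl⟩, he, (hδ _ he).2 hk⟩
  have hI : ∀ p ∈ incd G col rk b, G.Adj p.1 p.2 := fun p hp => (mem_incd.1 hp).1
  refine hC V G D col δ c b H hNP hcol hc ?_ ?_
  · intro p hp
    obtain ⟨h1, h2, h3⟩ := mem_incd.1 (hHI hp)
    have h4 := (hH p hp).1
    exact ⟨(hA p.2 p.1 (by omega) h1.symm).symm, h2⟩
  · intro p hp
    have h1 := st_reach hI hA hB r p (hHI hp) (hH p hp).2
    rcases Nat.mod_two_eq_zero_or_one r with hr | hr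
    · rw [side, if_pos hr] at h1
      exact Or.inr h1
    · rw [side, if_neg (by omega)] at h1
      exact Or.inl h1

end Pool.Agent.MP_245544_coT
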