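import Pool.Agent.Lib.MP_245544_coI.TDefs

namespace Pool.Agent.MP_245544_coT

private theorem WHyp.mono' {P Y : Type} {H H' : Finset (P × Y)} {e : Y → ℝ} (h : WHyp H e) (hs : H' ⊆ H) :
    WHyp H' e where
  nc p p' q hp h1 h2 a b u h3 h4 h5 := h.nc p p' q hp (hs h1) (hs h2) a b u (hs h3) (hs h4) (hs h5)
  ne1 p q q' h1 h2 := h.ne1 p q q' (hs h1) (hs h2)

/-- The weight of the state `(a, m, b)`. -/
private noncomputable def wwt {P Y : Type} [DecidableEq Y] (H : Finset (P × Y)) (e : Y → ℝ)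
    (a m b : Y) : ℕ := by
  classical
  exact ((H.image Prod.snd).filter fun y => e y ≠ e a ∧ e y ≠ e b ∧
    (Btw (e a) (e b) (e y) ↔ Btw (e a) (e b) (e m))).card

private theorem weak_wt_lt {P Y : Type} [DecidableEq P] [DecidableEq Y] {H : Finset (P × Y)} {e : Y → ℝ}
    (h : WHyp H e) {p p' : P} {a m b a' m' b' : Y} (hp : p ≠ p') (ha : (p, a) ∈ H)
    (hm : (p, m) ∈ H) (hb : (p, b) ∈ H) (ham : a ≠ m) (hbm : b ≠ m) (hab : a ≠ b)
    (hm2 : (p', m) ∈ H) (ha' : (p', a') ∈ H) (hm' : (p', m') ∈ H) (hb' : (p', b') ∈ H)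
    (ham' : a' ≠ m') (hbm' : b' ≠ m') (hab' : a' ≠ b') (ha'm : a' ≠ m) (hm'm : m' ≠ m)
    (hb'm : b' ≠ m)
    (hopp : ¬ (Btw (e a') (e b') (e m) ↔ Btw (e a') (e b') (e m'))) :
    wwt H e a' m' b' < wwt H e a m b := by
  classical
  have key : ∀ w : Y, e w ≠ e a' → e w ≠ e b' →
      (Btw (e a') (e b') (e w) ↔ Btw (e a') (e b') (e m')) →
      e w ≠ e a ∧ e w ≠ e b ∧ (Btw (e a) (e b) (e w) ↔ Btw (e a) (e b) (e m)) := by
    intro w hw1 hw2 hw3
    refine nested (h.ne1 p a b ha hb hab) (h.ne1 p a m ha hm ham) (h.ne1 p b m hb hm hbm)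
      (h.ne1 p' a' b' ha' hb' hab') (h.ne1 p' a' m' ha' hm' ham') (h.ne1 p' b' m' hb' hm' hbm')
      (h.ne1 p' a' m ha' hm2 ha'm) (h.ne1 p' b' m hb' hm2 hb'm) (h.ne1 p' m' m hm' hm2 hm'm)
      ?_ ?_ ?_ ?_ ?_ hopp hw1 hw2 hw3
    · intro h1 h2
      exact h.nc p p' m hp hm hm2 a b a' ha hb ha' hab ham hbm ha'm h1 h2
    · intro h1 h2
      exact h.nc p p' m hp hm hm2 a b b' ha hb hb' hab ham hbm hb'm h1 h2
    · intro h1 h2
      exact h.nc p p' m hp hm hm2 a b m' ha hb hm' hab ham hbm hm'm h1 h2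
    · intro h1 h2
      exact h.nc p' p m hp.symm hm2 hm a' b' a ha' hb' ha hab' ha'm hb'm ham h1 h2
    · intro h1 h2
      exact h.nc p' p m hp.symm hm2 hm a' b' b ha' hb' hb hab' ha'm hb'm hbm h1 h2
  unfold wwt
  refine Finset.card_lt_card ?_
  rw [Finset.ssubset_iff_of_subset]
  · refine ⟨m, ?_, ?_⟩
    · rw [Finset.mem_filter]
      exact ⟨Finset.mem_image.2 ⟨(p, m), hm, rfl⟩, (h.ne1 p a m ha hm ham).symm,
        (h.ne1 p b m hb hm hbm).symm, Iff.rfl⟩
    · rw [Finset.mem_filter]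
      rintro ⟨-, -, -, h4⟩
      exact hopp h4
  · intro w hw
    rw [Finset.mem_filter] at hw ⊢
    exact ⟨hw.1, key w hw.2.1 hw.2.2.1 hw.2.2.2⟩

private theorem weak_no_state {P Y : Type} [DecidableEq P] [DecidableEq Y] {H : Finset (P × Y)}
    {e : Y → ℝ} (h : WHyp H e)
    (h4 : ∀ p ∈ H.image Prod.fst, 3 < (H.filter (fun x => x.1 = p)).card)
    (h2 : ∀ y ∈ H.image Prod.snd, 1 < (H.filter (fun x => x.2 = y)).card) :
    ∀ (N : ℕ) (p : P) (a m b : Y), (p, a) ∈ H → (p, m) ∈ H → (p, b) ∈ H → a ≠ m → b ≠ m → a ≠ b →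
      wwt H e a m b = N → False := by
  intro N
  induction N using Nat.strong_induction_on with
  | _ N ih =>
    intro p a m b ha hm hb ham hbm hab hN
    obtain ⟨p', hp, hm2⟩ : ∃ p', p ≠ p' ∧ (p', m) ∈ H := by
      have h5 := h2 m (Finset.mem_image.2 ⟨(p, m), hm, rfl⟩)
      obtain ⟨x, hx, y, hy, hxy⟩ := Finset.one_lt_card.1 h5
      rw [Finset.mem_filter] at hx hy
      obtain ⟨x1, x2⟩ := x
      obtain ⟨y1, y2⟩ := y
      obtain ⟨hx1, hx2⟩ := hx
      obtain ⟨hy1, hy2⟩ := hy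
      simp only at hx2 hy2
      subst hx2
      subst hy2
      by_cases h6 : p = x1
      · refine ⟨y1, ?_, hy1⟩
        rintro rfl
        exact hxy (by rw [h6])
      · exact ⟨x1, h6, hx1⟩
    have h5 := h4 p' (Finset.mem_image.2 ⟨(p', m), hm2, rfl⟩)
    have h6 : 2 < ((H.filter (fun x => x.1 = p')).erase (p', m)).card := by
      have h7 : (p', m) ∈ H.filter (fun x => x.1 = p') := Finset.mem_filter.2 ⟨hm2, rfl⟩
      have h8 := Finset.card_erase_add_one h7
      omega
    obtain ⟨x, hx, y, hy, z, hz, hxy, hxz, hyz⟩ := Finset.two_lt_card.1 h6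
    rw [Finset.mem_erase, Finset.mem_filter] at hx hy hz
    obtain ⟨x1, x⟩ := x
    obtain ⟨y1, y⟩ := y
    obtain ⟨z1, z⟩ := z
    obtain ⟨hxm, hx, hx1⟩ := hx
    obtain ⟨hym, hy, hy1⟩ := hy
    obtain ⟨hzm, hz, hz1⟩ := hz
    simp only at hx1 hy1 hz1
    subst hx1
    subst hy1
    subst hz1
    have hxm' : x ≠ m := fun hh => hxm (by rw [hh])
    have hym' : y ≠ m := fun hh => hym (by rw [hh])
    have hzm' : z ≠ m := fun hh => hzm (by rw [hh])
    have hxy' : x ≠ y := fun hh => hxy (by rw [hh])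
    have hxz' : x ≠ z := fun hh => hxz (by rw [hh])
    have hyz' : y ≠ z := fun hh => hyz (by rw [hh])
    rcases exists_opp (h.ne1 _ _ _ hx hy hxy') (h.ne1 _ _ _ hx hz hxz') (h.ne1 _ _ _ hy hz hyz')
      (h.ne1 _ _ _ hx hm2 hxm') (h.ne1 _ _ _ hy hm2 hym') (h.ne1 _ _ _ hz hm2 hzm') with ho | ho | ho
    · have h7 := weak_wt_lt h hp ha hm hb ham hbm hab hm2 hx hz hy hxz' hyz' hxy' hxm' hzm' hym' ho
      exact ih _ (hN ▸ h7) _ x z y hx hz hy hxz' hyz' hxy' rfl
    · have h7 := weak_wt_lt h hp ha hm hb ham hbm hab hm2 hx hy hz hxy' hyz'.symm hxz' hxm' hym' hzm' ho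
      exact ih _ (hN ▸ h7) _ x y z hx hy hz hxy' hyz'.symm hxz' rfl
    · have h7 := weak_wt_lt h hp ha hm hb ham hbm hab hm2 hy hx hz hxy'.symm hxz'.symm hyz' hym' hxm'
        hzm' ho
      exact ih _ (hN ▸ h7) _ y x z hy hx hz hxy'.symm hxz'.symm hyz' rfl

/-- Descent: a nonempty `H` has a vertex of `P` of degree at most 3 or a vertex of `Y` of degree 1. -/
private theorem weak_exists_small {P Y : Type} [DecidableEq P] [DecidableEq Y] {H : Finset (P × Y)} {e : Y → ℝ}
    (h : WHyp H e) (hne : H.Nonempty) :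
    (∃ p ∈ H.image Prod.fst, (H.filter (fun x => x.1 = p)).card ≤ 3) ∨
    (∃ y ∈ H.image Prod.snd, (H.filter (fun x => x.2 = y)).card ≤ 1) := by
  by_contra hcon
  rw [not_or] at hcon
  obtain ⟨hc1, hc2⟩ := hcon
  have h4 : ∀ p ∈ H.image Prod.fst, 3 < (H.filter (fun x => x.1 = p)).card := fun p hp => by
    by_contra hh
    exact hc1 ⟨p, hp, by omega⟩
  have h2 : ∀ y ∈ H.image Prod.snd, 1 < (H.filter (fun x => x.2 = y)).card := fun y hy => by
    by_contra hh
    exact hc2 ⟨y, hy, by omega⟩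
  obtain ⟨⟨p, q⟩, hpq⟩ := hne
  have h5 := h4 p (Finset.mem_image.2 ⟨(p, q), hpq, rfl⟩)
  have h6 : 2 < (H.filter (fun x => x.1 = p)).card := by omega
  obtain ⟨x, hx, y, hy, z, hz, hxy, hxz, hyz⟩ := Finset.two_lt_card.1 h6
  rw [Finset.mem_filter] at hx hy hz
  obtain ⟨x1, x⟩ := x
  obtain ⟨y1, y⟩ := y
  obtain ⟨z1, z⟩ := z
  obtain ⟨hx, hx1⟩ := hx
  obtain ⟨hy, hy1⟩ := hy
  obtain ⟨hz, hz1⟩ := hz
  simp only at hx1 hy1 hz1
  subst hx1
  subst hy1
  subst hz1
  exact weak_no_state h h4 h2 _ _ x y z hx hy hz (fun hh => hxy (by rw [hh]))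
    (fun hh => hyz (by rw [hh])) (fun hh => hxz (by rw [hh])) rfl

/-- Lemma C, weak form. -/
theorem WHyp.bound {P Y : Type} [DecidableEq P] [DecidableEq Y] {H : Finset (P × Y)} {e : Y → ℝ}
    (h : WHyp H e) : H.card ≤ 3 * (H.image Prod.fst).card + (H.image Prod.snd).card := by
  suffices hs : ∀ (N : ℕ) (H : Finset (P × Y)), WHyp H e → H.card = N →
      H.card ≤ 3 * (H.image Prod.fst).card + (H.image Prod.snd).card from hs _ H h rfl
  intro N
  induction N using Nat.strong_induction_on with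
  | _ N ih =>
    intro H h hN
    rcases H.eq_empty_or_nonempty with h0 | hne
    · rw [h0]
      simp
    · rcases weak_exists_small h hne with ⟨p, hp, hc⟩ | ⟨y, hy, hc⟩
      · have h1 := Finset.card_filter_add_card_filter_not (s := H) (fun x : P × Y => x.1 = p)
        have hpos : 0 < (H.filter (fun x => x.1 = p)).card := by
          obtain ⟨x, hx, hxp⟩ := Finset.mem_image.1 hp
          exact Finset.card_pos.2 ⟨x, Finset.mem_filter.2 ⟨hx, hxp⟩⟩
        have h2 := ih _ (by omega) (H.filter (fun x => ¬ x.1 = p))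
          (WHyp.mono' h (Finset.filter_subset _ _)) rfl
        have h3 : ((H.filter (fun x => ¬ x.1 = p)).image Prod.fst).card + 1 ≤
            (H.image Prod.fst).card := by
          have h4 : (H.filter (fun x => ¬ x.1 = p)).image Prod.fst ⊆
              (H.image Prod.fst).erase p := by
            intro q hq
            obtain ⟨x, hx, rfl⟩ := Finset.mem_image.1 hq
            rw [Finset.mem_filter] at hx
            exact Finset.mem_erase.2 ⟨hx.2, Finset.mem_image.2 ⟨x, hx.1, rfl⟩⟩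
          have h5 := Finset.card_le_card h4
          have h6 := Finset.card_erase_add_one hp
          omega
        have h4 : ((H.filter (fun x => ¬ x.1 = p)).image Prod.snd).card ≤
            (H.image Prod.snd).card :=
          Finset.card_le_card (Finset.image_subset_image (Finset.filter_subset _ _))
        omega
      · have h1 := Finset.card_filter_add_card_filter_not (s := H) (fun x : P × Y => x.2 = y)
        have hpos : 0 < (H.filter (fun x => x.2 = y)).card := by
          obtain ⟨x, hx, hxp⟩ := Finset.mem_image.1 hy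
          exact Finset.card_pos.2 ⟨x, Finset.mem_filter.2 ⟨hx, hxp⟩⟩
        have h2 := ih _ (by omega) (H.filter (fun x => ¬ x.2 = y))
          (WHyp.mono' h (Finset.filter_subset _ _)) rfl
        have h3 : ((H.filter (fun x => ¬ x.2 = y)).image Prod.snd).card + 1 ≤
            (H.image Prod.snd).card := by
          have h4 : (H.filter (fun x => ¬ x.2 = y)).image Prod.snd ⊆
              (H.image Prod.snd).erase y := by
            intro q hq
            obtain ⟨x, hx, rfl⟩ := Finset.mem_image.1 hq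
            rw [Finset.mem_filter] at hx
            exact Finset.mem_erase.2 ⟨hx.2, Finset.mem_image.2 ⟨x, hx.1, rfl⟩⟩
          have h5 := Finset.card_le_card h4
          have h6 := Finset.card_erase_add_one hy
          omega
        have h4 : ((H.filter (fun x => ¬ x.2 = y)).image Prod.fst).card ≤
            (H.image Prod.fst).card :=
          Finset.card_le_card (Finset.image_subset_image (Finset.filter_subset _ _))
        omega

end Pool.Agent.MP_245544_coT
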