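import Pool.Agent.Lib.MP_245544_coI.CBasic

namespace Pool.Agent.MP_245544_coT

variable {V : Type} [DecidableEq V]

omit [DecidableEq V] in
/-- The number of incidences of the windows `[c t, c t + k)`. -/
private theorem win_sum {α : Type} (T : Finset α) (c : α → ℕ) (k N : ℕ)
    (hN : ∀ t ∈ T, c t + k ≤ N) :
    ∑ s ∈ Finset.range N, (T.filter (fun t => c t ≤ s ∧ s < c t + k)).card = k * T.card := by
  have h1 := Finset.sum_card_bipartiteAbove_eq_sum_card_bipartiteBelow (s := Finset.range N)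
    (t := T) (fun s t => c t ≤ s ∧ s < c t + k)
  unfold Finset.bipartiteAbove Finset.bipartiteBelow at h1
  rw [h1]
  have h2 : ∀ t ∈ T, ((Finset.range N).filter (fun s => c t ≤ s ∧ s < c t + k)).card = k := by
    intro t ht
    have h3 : (Finset.range N).filter (fun s => c t ≤ s ∧ s < c t + k) =
        Finset.Ico (c t) (c t + k) := by
      ext s
      rw [Finset.mem_filter, Finset.mem_range, Finset.mem_Ico]
      have h4 := hN t ht
      omega
    rw [h3, Nat.card_Ico, Nat.add_sub_cancel_left]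
  rw [Finset.sum_congr rfl h2, Finset.sum_const, smul_eq_mul, mul_comm]

/-- Double counting with windows `[a l, a l + w)` attached to the right vertices. -/
theorem window {J : Finset (V × V)} {C w m : ℕ} (a b : V → ℕ) (hw : 1 ≤ w) (hm : 1 ≤ m)
    (h : ∀ s, ∀ H ⊆ J, (∀ p ∈ H, a p.2 ≤ s ∧ s < a p.2 + w) → H.card ≤ C * nn H)
    (hb : ∀ p ∈ J, b p.1 ≤ a p.2 ∧ a p.2 + w ≤ b p.1 + m * w) : J.card ≤ C * m * nn J := by
  set N : ℕ := J.sup (fun p => a p.2 + w) + J.sup (fun p => b p.1 + m * w) with hN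
  have hN1 : ∀ p ∈ J, a p.2 + w ≤ N := by
    intro p hp
    have h1 : a p.2 + w ≤ J.sup (fun p => a p.2 + w) :=
      Finset.le_sup (f := fun p : V × V => a p.2 + w) hp
    omega
  have hN2 : ∀ p ∈ J, b p.1 + m * w ≤ N := by
    intro p hp
    have h1 : b p.1 + m * w ≤ J.sup (fun p => b p.1 + m * w) :=
      Finset.le_sup (f := fun p : V × V => b p.1 + m * w) hp
    omega
  let H : ℕ → Finset (V × V) := fun s => J.filter (fun p => a p.2 ≤ s ∧ s < a p.2 + w)
  have hHJ : ∀ s, H s ⊆ J := fun s => Finset.filter_subset _ _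
  have hH : ∀ s p, p ∈ H s ↔ p ∈ J ∧ a p.2 ≤ s ∧ s < a p.2 + w := fun s p =>
    Finset.mem_filter
  have e1 : ∑ s ∈ Finset.range N, (H s).card = w * J.card :=
    win_sum J (fun p => a p.2) w N hN1
  have e2 : ∑ s ∈ Finset.range N, ((H s).image Prod.snd).card ≤ w * (J.image Prod.snd).card := by
    rw [← win_sum (J.image Prod.snd) a w N (by
      intro l hl
      obtain ⟨p, hp, rfl⟩ := Finset.mem_image.1 hl
      exact hN1 p hp)]
    refine Finset.sum_le_sum fun s _ => Finset.card_le_card ?_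
    intro l hl
    obtain ⟨p, hp, rfl⟩ := Finset.mem_image.1 hl
    rw [hH] at hp
    exact Finset.mem_filter.2 ⟨Finset.mem_image_of_mem _ hp.1, hp.2⟩
  have e3 : ∑ s ∈ Finset.range N, ((H s).image Prod.fst).card ≤
      m * w * (J.image Prod.fst).card := by
    rw [← win_sum (J.image Prod.fst) b (m * w) N (by
      intro l hl
      obtain ⟨p, hp, rfl⟩ := Finset.mem_image.1 hl
      exact hN2 p hp)]
    refine Finset.sum_le_sum fun s _ => Finset.card_le_card ?_
    intro l hl
    obtain ⟨p, hp, rfl⟩ := Finset.mem_image.1 hl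
    rw [hH] at hp
    have h1 := hb p hp.1
    refine Finset.mem_filter.2 ⟨Finset.mem_image_of_mem _ hp.1, ?_, ?_⟩
    · exact h1.1.trans hp.2.1
    · exact lt_of_lt_of_le hp.2.2 h1.2
  have e4 : ∑ s ∈ Finset.range N, (H s).card ≤
      ∑ s ∈ Finset.range N, C * (((H s).image Prod.fst).card + ((H s).image Prod.snd).card) :=
    Finset.sum_le_sum fun s _ => h s (H s) (hHJ s) fun p hp => ((hH s p).1 hp).2
  rw [e1, ← Finset.mul_sum, Finset.sum_add_distrib] at e4
  have e5 : w * J.card ≤ w * (C * m * nn J) := by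
    calc w * J.card ≤ C * (m * w * (J.image Prod.fst).card + w * (J.image Prod.snd).card) :=
          e4.trans (Nat.mul_le_mul_left C (Nat.add_le_add e3 e2))
      _ ≤ C * (m * w * (J.image Prod.fst).card + m * w * (J.image Prod.snd).card) := by
          refine Nat.mul_le_mul_left C (Nat.add_le_add_left (Nat.mul_le_mul_right _ ?_) _)
          exact Nat.le_mul_of_pos_left w hm
      _ = w * (C * m * nn J) := by
          unfold nn
          ring
  exact Nat.le_of_mul_le_mul_left e5 hw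

/-- The window lemma for a subset `J` of a sparse set. -/
theorem Spr.window {r C : ℕ} {I J : Finset (V × V)} {f g : V → ℕ} (h : Spr r C I f g) (hJ : J ⊆ I)
    {w m : ℕ} (a b : V → ℕ) (hw : 1 ≤ w) (hm : 1 ≤ m)
    (hz : ∀ p ∈ J, ∀ s, a p.2 ≤ s → s < a p.2 + w → f p.1 ≤ s ∧ s ≤ E r I g (side r p))
    (hb : ∀ p ∈ J, b p.1 ≤ a p.2 ∧ a p.2 + w ≤ b p.1 + m * w) : J.card ≤ C * m * nn J :=
  Pool.Agent.MP_245544_coT.window a b hw hm (fun s H hH hs => h s H (hH.trans hJ)
    fun p hp => hz p (hH hp) s (hs p hp).1 (hs p hp).2) hb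

end Pool.Agent.MP_245544_coT
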